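import Mathlib
import Pool.Agent.Helper56.SKR.Semi

/-!
# The reduction theorem for all restricted Lie superalgebras: definitions
-/

namespace Pool.Agent.Helper56.SKF

open Module Pool.Agent.Helper56.SKW Pool.Agent.Helper56.SKW.PBW Pool.Agent.Helper56.SKU
  Pool.Agent.Helper56.SKR

universe u v w

section sub

variable {k L₀ L₁ : Type*} [Field k] [AddCommGroup L₀] [Module k L₀] [AddCommGroup L₁]
  [Module k L₁]

/-- A graded subalgebra. -/
structure IsSub (g : LieSuper k L₀ L₁) (H₀ : Submodule k L₀) (H₁ : Submodule k L₁) : Prop where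
  c00 : ∀ x ∈ H₀, ∀ x' ∈ H₀, g.b00 x x' ∈ H₀
  c01 : ∀ x ∈ H₀, ∀ y ∈ H₁, g.b01 x y ∈ H₁
  c11 : ∀ y ∈ H₁, ∀ y' ∈ H₁, g.b11 y y' ∈ H₀

/-- A bilinear map restricted to subspaces. -/
def res₂ {M N Q : Type*} [AddCommGroup M] [Module k M] [AddCommGroup N] [Module k N]
    [AddCommGroup Q] [Module k Q] (b : M →ₗ[k] N →ₗ[k] Q) (A : Submodule k M)
    (B : Submodule k N) (C : Submodule k Q) (h : ∀ x ∈ A, ∀ y ∈ B, b x y ∈ C) :
    A →ₗ[k] B →ₗ[k] C :=
  LinearMap.mk₂ k (fun x y => ⟨b x y, h x x.2 y y.2⟩)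
    (fun x x' y => Subtype.ext (by simp)) (fun c x y => Subtype.ext (by simp))
    (fun x y y' => Subtype.ext (by simp)) (fun c x y => Subtype.ext (by simp))

@[simp] theorem res₂_coe {M N Q : Type*} [AddCommGroup M] [Module k M] [AddCommGroup N]
    [Module k N] [AddCommGroup Q] [Module k Q] (b : M →ₗ[k] N →ₗ[k] Q) (A : Submodule k M)
    (B : Submodule k N) (C : Submodule k Q) (h : ∀ x ∈ A, ∀ y ∈ B, b x y ∈ C) (x : A) (y : B) :
    ((res₂ b A B C h x y : C) : Q) = b x y := rfl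

/-- A graded subalgebra as a Lie superalgebra. -/
def subL {g : LieSuper k L₀ L₁} {H₀ : Submodule k L₀} {H₁ : Submodule k L₁}
    (h : IsSub g H₀ H₁) : LieSuper k H₀ H₁ where
  b00 := res₂ g.b00 H₀ H₀ H₀ h.c00
  b01 := res₂ g.b01 H₀ H₁ H₁ h.c01
  b11 := res₂ g.b11 H₁ H₁ H₀ h.c11
  self00 x := Subtype.ext (g.self00 x)
  symm11 y y' := Subtype.ext (g.symm11 y y')
  jac000 x x' x'' := Subtype.ext (g.jac000 x x' x'')
  jac001 x x' y := Subtype.ext (g.jac001 x x' y)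
  jac011 x y y' := Subtype.ext (g.jac011 x y y')
  jac111 y := Subtype.ext (g.jac111 y)

/-- A graded ideal. -/
structure IsIdl (g : LieSuper k L₀ L₁) (J₀ : Submodule k L₀) (J₁ : Submodule k L₁) : Prop where
  c00 : ∀ x, ∀ x' ∈ J₀, g.b00 x x' ∈ J₀
  c01 : ∀ x, ∀ y ∈ J₁, g.b01 x y ∈ J₁
  c10 : ∀ x ∈ J₀, ∀ y, g.b01 x y ∈ J₁
  c11 : ∀ y, ∀ y' ∈ J₁, g.b11 y y' ∈ J₀

/-- A bilinear map on quotients. -/
def quo₂ {M N Q : Type*} [AddCommGroup M] [Module k M] [AddCommGroup N] [Module k N]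
    [AddCommGroup Q] [Module k Q] (b : M →ₗ[k] N →ₗ[k] Q) (A : Submodule k M)
    (B : Submodule k N) (C : Submodule k Q) (h : ∀ x, ∀ y ∈ B, b x y ∈ C)
    (h' : ∀ x ∈ A, ∀ y, b x y ∈ C) : (M ⧸ A) →ₗ[k] (N ⧸ B) →ₗ[k] (Q ⧸ C) :=
  A.liftQ
    { toFun := fun x => B.mapQ C (b x) (h x)
      map_add' := by
        intro x x'
        apply LinearMap.ext
        intro y
        obtain ⟨y, rfl⟩ := B.mkQ_surjective y
        simp
      map_smul' := by
        intro c x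
        apply LinearMap.ext
        intro y
        obtain ⟨y, rfl⟩ := B.mkQ_surjective y
        simp }
    (by
      intro x hx
      rw [LinearMap.mem_ker]
      apply LinearMap.ext
      intro y
      obtain ⟨y, rfl⟩ := B.mkQ_surjective y
      show C.mkQ (b x y) = 0
      rw [Submodule.mkQ_apply, Submodule.Quotient.mk_eq_zero]
      exact h' x hx y)

@[simp] theorem quo₂_mk {M N Q : Type*} [AddCommGroup M] [Module k M] [AddCommGroup N]
    [Module k N] [AddCommGroup Q] [Module k Q] (b : M →ₗ[k] N →ₗ[k] Q) (A : Submodule k M)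
    (B : Submodule k N) (C : Submodule k Q) (h : ∀ x, ∀ y ∈ B, b x y ∈ C)
    (h' : ∀ x ∈ A, ∀ y, b x y ∈ C) (x : M) (y : N) :
    quo₂ b A B C h h' (A.mkQ x) (B.mkQ y) = C.mkQ (b x y) := rfl

theorem IsIdl.c00' {g : LieSuper k L₀ L₁} {J₀ : Submodule k L₀} {J₁ : Submodule k L₁}
    (h : IsIdl g J₀ J₁) : ∀ x ∈ J₀, ∀ x', g.b00 x x' ∈ J₀ := by
  intro x hx x'
  rw [anti00]
  exact J₀.neg_mem (h.c00 x' x hx)

theorem IsIdl.c11' {g : LieSuper k L₀ L₁} {J₀ : Submodule k L₀} {J₁ : Submodule k L₁}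
    (h : IsIdl g J₀ J₁) : ∀ y ∈ J₁, ∀ y', g.b11 y y' ∈ J₀ := by
  intro y hy y'
  rw [g.symm11]
  exact h.c11 y' y hy

/-- The quotient by a graded ideal. -/
def quoL {g : LieSuper k L₀ L₁} {J₀ : Submodule k L₀} {J₁ : Submodule k L₁}
    (h : IsIdl g J₀ J₁) : LieSuper k (L₀ ⧸ J₀) (L₁ ⧸ J₁) where
  b00 := quo₂ g.b00 J₀ J₀ J₀ h.c00 h.c00'
  b01 := quo₂ g.b01 J₀ J₁ J₁ h.c01 h.c10
  b11 := quo₂ g.b11 J₁ J₁ J₀ h.c11 h.c11'
  self00 x := by
    obtain ⟨x, rfl⟩ := J₀.mkQ_surjective x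
    rw [quo₂_mk, g.self00, map_zero]
  symm11 y y' := by
    obtain ⟨y, rfl⟩ := J₁.mkQ_surjective y
    obtain ⟨y', rfl⟩ := J₁.mkQ_surjective y'
    rw [quo₂_mk, quo₂_mk, g.symm11]
  jac000 x x' x'' := by
    obtain ⟨x, rfl⟩ := J₀.mkQ_surjective x
    obtain ⟨x', rfl⟩ := J₀.mkQ_surjective x'
    obtain ⟨x'', rfl⟩ := J₀.mkQ_surjective x''
    simp only [quo₂_mk, ← map_sub, g.jac000]
  jac001 x x' y := by
    obtain ⟨x, rfl⟩ := J₀.mkQ_surjective x
    obtain ⟨x', rfl⟩ := J₀.mkQ_surjective x'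
    obtain ⟨y, rfl⟩ := J₁.mkQ_surjective y
    simp only [quo₂_mk, ← map_sub, g.jac001]
  jac011 x y y' := by
    obtain ⟨x, rfl⟩ := J₀.mkQ_surjective x
    obtain ⟨y, rfl⟩ := J₁.mkQ_surjective y
    obtain ⟨y', rfl⟩ := J₁.mkQ_surjective y'
    simp only [quo₂_mk, ← map_add, g.jac011]
  jac111 y := by
    obtain ⟨y, rfl⟩ := J₁.mkQ_surjective y
    rw [quo₂_mk, quo₂_mk, g.jac111, map_zero]

/-- The even centraliser of an odd element. -/
def cE (g : LieSuper k L₀ L₁) (ν : L₁) : Submodule k L₀ := LinearMap.ker (g.b01.flip ν)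

/-- The odd centraliser of an odd element. -/
def cO (g : LieSuper k L₀ L₁) (ν : L₁) : Submodule k L₁ := LinearMap.ker (g.b11 ν)

theorem mem_cE {g : LieSuper k L₀ L₁} {ν : L₁} {x : L₀} : x ∈ cE g ν ↔ g.b01 x ν = 0 := Iff.rfl

theorem mem_cO {g : LieSuper k L₀ L₁} {ν : L₁} {y : L₁} : y ∈ cO g ν ↔ g.b11 ν y = 0 := Iff.rfl

theorem c_sub (h2 : (2 : k) ≠ 0) {g : LieSuper k L₀ L₁} {ν : L₁} : IsSub g (cE g ν) (cO g ν) where
  c00 x hx x' hx' := by
    rw [mem_cE] at *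
    rw [g.jac001, hx, hx', map_zero, map_zero, sub_zero]
  c01 x hx y hy := by
    rw [mem_cE] at hx
    rw [mem_cO] at *
    have h := g.jac011 x ν y
    rw [hx, hy, map_zero, map_zero, LinearMap.zero_apply, zero_add] at h
    exact h.symm
  c11 y hy y' hy' := by
    rw [mem_cO] at hy hy'
    rw [mem_cE]
    have h := cyc111 h2 g ν y y'
    rw [hy, hy', map_zero, LinearMap.zero_apply, LinearMap.zero_apply, zero_add, add_zero] at h
    exact h

/-- The even part of the ideal of the centraliser. -/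
def jE (g : LieSuper k L₀ L₁) (ν : L₁) : Submodule k (cE g ν) :=
  (LinearMap.range (g.b11 ν)).comap (cE g ν).subtype

/-- The odd part of the ideal of the centraliser. -/
def jO (g : LieSuper k L₀ L₁) (ν : L₁) : Submodule k (cO g ν) :=
  (Submodule.span k {ν} ⊔ LinearMap.range (g.b01.flip ν)).comap (cO g ν).subtype

theorem j_idl (h2 : (2 : k) ≠ 0) {g : LieSuper k L₀ L₁} {ν : L₁} :
    IsIdl (subL (c_sub h2 (g := g) (ν := ν))) (jE g ν) (jO g ν) where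
  c00 := by
    rintro ⟨x, hx⟩ ⟨x', hx'⟩ ⟨y, hy⟩
    have hy' : g.b11 ν y = x' := hy
    rw [mem_cE] at hx
    refine ⟨g.b01 x y, ?_⟩
    show g.b11 ν (g.b01 x y) = g.b00 x x'
    rw [← hy', g.jac011, hx, map_zero, LinearMap.zero_apply, zero_add]
  c01 := by
    rintro ⟨x, hx⟩ ⟨y, hy⟩ hyJ
    have hyJ' : y ∈ Submodule.span k {ν} ⊔ LinearMap.range (g.b01.flip ν) := hyJ
    rw [mem_cE] at hx
    obtain ⟨a, ha, b, ⟨x', hb⟩, hab⟩ := Submodule.mem_sup.1 hyJ'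
    obtain ⟨c, rfl⟩ := Submodule.mem_span_singleton.1 ha
    have hb' : g.b01 x' ν = b := hb
    show g.b01 x y ∈ Submodule.span k {ν} ⊔ LinearMap.range (g.b01.flip ν)
    refine (le_sup_right : LinearMap.range (g.b01.flip ν) ≤ _) ⟨g.b00 x x', ?_⟩
    show g.b01 (g.b00 x x') ν = g.b01 x y
    rw [← hab, map_add, map_smul, hx, smul_zero, zero_add, ← hb', g.jac001, hx, map_zero,
      sub_zero]
  c10 := by
    rintro ⟨x, hx⟩ ⟨y', hy'⟩ ⟨y, hy⟩
    have hy'' : g.b11 ν y' = x := hy'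
    rw [mem_cO] at hy
    show g.b01 x y ∈ Submodule.span k {ν} ⊔ LinearMap.range (g.b01.flip ν)
    refine (le_sup_right : LinearMap.range (g.b01.flip ν) ≤ _) ⟨-g.b11 y' y, ?_⟩
    show g.b01 (-g.b11 y' y) ν = g.b01 x y
    have h := cyc111 h2 g ν y' y
    rw [hy, map_zero, LinearMap.zero_apply, add_zero] at h
    rw [← hy'', map_neg, LinearMap.neg_apply]
    exact (eq_neg_of_add_eq_zero_left h).symm
  c11 := by
    rintro ⟨y', hy'⟩ ⟨y, hy⟩ hyJ
    have hyJ' : y ∈ Submodule.span k {ν} ⊔ LinearMap.range (g.b01.flip ν) := hyJ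
    rw [mem_cO] at hy'
    obtain ⟨a, ha, b, ⟨x', hb⟩, hab⟩ := Submodule.mem_sup.1 hyJ'
    obtain ⟨c, rfl⟩ := Submodule.mem_span_singleton.1 ha
    have hb' : g.b01 x' ν = b := hb
    show g.b11 y' y ∈ LinearMap.range (g.b11 ν)
    refine ⟨-g.b01 x' y', ?_⟩
    have h := g.jac011 x' ν y'
    rw [hy', map_zero] at h
    have h3 : g.b11 y' ν = 0 := by rw [g.symm11]; exact hy'
    rw [map_neg, ← hab, map_add, map_smul, h3, smul_zero, zero_add, ← hb', g.symm11 y']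
    exact (eq_neg_of_add_eq_zero_left h.symm).symm

/-- The reduced Lie superalgebra. -/
def gR (h2 : (2 : k) ≠ 0) (g : LieSuper k L₀ L₁) (ν : L₁) :
    LieSuper k (cE g ν ⧸ jE g ν) (cO g ν ⧸ jO g ν) := quoL (j_idl h2 (g := g) (ν := ν))

end sub

section rep

variable {k L₀ L₁ : Type*} [Field k] [AddCommGroup L₀] [Module k L₀] [AddCommGroup L₁]
  [Module k L₁]

/-- A representation with a parity operator. -/
structure GRep (g : LieSuper k L₀ L₁) (A : Type*) [Ring A] [Algebra k A] where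
  σ : A
  ρ₀ : L₀ →ₗ[k] A
  ρ₁ : L₁ →ₗ[k] A
  ss : σ * σ = 1
  s0 : ∀ x, σ * ρ₀ x = ρ₀ x * σ
  s1 : ∀ y, σ * ρ₁ y = -(ρ₁ y * σ)
  m00 : ∀ x x', ρ₀ (g.b00 x x') = ρ₀ x * ρ₀ x' - ρ₀ x' * ρ₀ x
  m01 : ∀ x y, ρ₁ (g.b01 x y) = ρ₀ x * ρ₁ y - ρ₁ y * ρ₀ x
  m11 : ∀ y y', ρ₀ (g.b11 y y') = ρ₁ y * ρ₁ y' + ρ₁ y' * ρ₁ y

variable {g : LieSuper k L₀ L₁} {F V : Type*} [Field F] [Algebra k F] [AddCommGroup V]
  [Module F V] [Module k V] [IsScalarTower k F V]

/-- Irreducibility over `F`. -/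
def GRep.Irr (M : GRep g (Module.End F V)) : Prop :=
  Nontrivial V ∧ ∀ W : Submodule F V, (∀ v ∈ W, M.σ v ∈ W) → (∀ x, ∀ v ∈ W, M.ρ₀ x v ∈ W) →
    (∀ y, ∀ v ∈ W, M.ρ₁ y v ∈ W) → W = ⊥ ∨ W = ⊤

/-- The `p`-character is close to `θ ^ p / η ^ (2 p)`. -/
def GRep.Near (p : ℕ) (θ : L₀ →ₗ[k] k) (O : ValuationSubring F) (η : O)
    (M : GRep g (Module.End F V)) : Prop :=
  ∀ x x', (∀ a, g.b00 x' a = ((g.b00 x) ^ p) a) → (∀ y, g.b01 x' y = ((g.b01 x) ^ p) y) →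
    ∃ (ζ : F) (δ : O), IsLocalRing.residue O δ = 0 ∧ M.ρ₀ x ^ p - M.ρ₀ x' = ζ • 1 ∧
      (η : F) ^ (2 * p) * ζ = algebraMap k F (θ x) ^ p + δ

end rep

section par

variable {k L₀ L₁ : Type*} [Field k] [AddCommGroup L₀] [Module k L₀] [AddCommGroup L₁]
  [Module k L₁] {m n : Type} [Fintype m] [Fintype n] [DecidableEq m] [DecidableEq n]

theorem neg_comm {S A : Type*} [CommRing S] [Ring A] [Algebra S A] {s a : A} {e : S}
    (h : s * a = e • (a * s)) : (-s) * a = e • (a * (-s)) := by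
  rw [neg_mul, h, mul_neg, smul_neg]

theorem neg_comm' {S A : Type*} [CommRing S] [Ring A] [Algebra S A] {s a : A} {e : S}
    (h : a * s = e • (s * a)) : a * (-s) = e • ((-s) * a) := by
  rw [mul_neg, h, neg_mul, smul_neg]

theorem neg_self {S A : Type*} [CommRing S] [Ring A] [Algebra S A] {s : A} {e c : S}
    (h : s * s = e • (s * s) + c • 1) : (-s) * (-s) = e • ((-s) * (-s)) + c • 1 := by
  rw [neg_mul_neg]
  exact h

theorem neg_pow2 {S A : Type*} [CommRing S] [Ring A] [Algebra S A] {s : A} {c : S}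
    (h : s ^ 2 = c • 1) : (-s) ^ 2 = c • 1 := by
  rw [neg_sq]
  exact h

/-- The letters with the sign of the parity operator changed. -/
noncomputable def piL (g : LieSuper k L₀ L₁) (b₀ : Basis m k L₀) (b₁ : Basis n k L₁) (p : ℕ)
    (P : m → L₀) : Unit ⊕ (m ⊕ n) → EU (PG g b₀ b₁ p P)
  | Sum.inl _ => -gE _ (Sum.inl ())
  | Sum.inr z => gE _ (Sum.inr z)

omit [DecidableEq m] [DecidableEq n] in
theorem piL_rel (g : LieSuper k L₀ L₁) (b₀ : Basis m k L₀) (b₁ : Basis n k L₁) (p : ℕ)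
    (P : m → L₀) : IsRel (PG g b₀ b₁ p P) (RingHom.id _) (piL g b₀ b₁ p P) := by
  have hr := gE_rel (PG g b₀ b₁ p P)
  have hσx : ∀ x : m ⊕ n, gE (PG g b₀ b₁ p P) (Sum.inl ()) * gE _ (Sum.inr x) =
      (PG g b₀ b₁ p P).E (Sum.inl ()) (Sum.inr x) •
        (gE _ (Sum.inr x) * gE (PG g b₀ b₁ p P) (Sum.inl ())) := by
    intro x
    have h3 := hr.comm (Sum.inl ()) (Sum.inr x)
    have e2 : ∀ z, (PG g b₀ b₁ p P).C (Sum.inl ()) (Sum.inr x) z = 0 := by
      rintro (z | z) <;> rfl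
    have e3 : (PG g b₀ b₁ p P).C0 (Sum.inl ()) (Sum.inr x) = 0 := rfl
    simpa only [e2, e3, map_zero, zero_smul, Finset.sum_const_zero, add_zero,
      RingHom.id_apply] using h3
  have hxσ : ∀ x : m ⊕ n, gE (PG g b₀ b₁ p P) (Sum.inr x) * gE _ (Sum.inl ()) =
      (PG g b₀ b₁ p P).E (Sum.inr x) (Sum.inl ()) •
        (gE _ (Sum.inl ()) * gE (PG g b₀ b₁ p P) (Sum.inr x)) := by
    intro x
    have h3 := hr.comm (Sum.inr x) (Sum.inl ())
    have e2 : ∀ z, (PG g b₀ b₁ p P).C (Sum.inr x) (Sum.inl ()) z = 0 := by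
      rintro (z | z) <;> rfl
    have e3 : (PG g b₀ b₁ p P).C0 (Sum.inr x) (Sum.inl ()) = 0 := rfl
    simpa only [e2, e3, map_zero, zero_smul, Finset.sum_const_zero, add_zero,
      RingHom.id_apply] using h3
  constructor
  · rintro (⟨⟩ | x) (⟨⟩ | y)
    · have h3 := hr.comm (Sum.inl ()) (Sum.inl ())
      have e2 : ∀ z, (PG g b₀ b₁ p P).C (Sum.inl ()) (Sum.inl ()) z = 0 := by
        rintro (z | z) <;> rfl
      simp only [e2, map_zero, zero_smul, Finset.sum_const_zero, add_zero] at h3 ⊢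
      exact neg_self h3
    · have e2 : ∀ z, (PG g b₀ b₁ p P).C (Sum.inl ()) (Sum.inr y) z = 0 := by
        rintro (z | z) <;> rfl
      have e3 : (PG g b₀ b₁ p P).C0 (Sum.inl ()) (Sum.inr y) = 0 := rfl
      simp only [e2, e3, map_zero, zero_smul, Finset.sum_const_zero, add_zero,
        RingHom.id_apply]
      exact neg_comm (hσx y)
    · have e2 : ∀ z, (PG g b₀ b₁ p P).C (Sum.inr x) (Sum.inl ()) z = 0 := by
        rintro (z | z) <;> rfl
      have e3 : (PG g b₀ b₁ p P).C0 (Sum.inr x) (Sum.inl ()) = 0 := rfl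
      simp only [e2, e3, map_zero, zero_smul, Finset.sum_const_zero, add_zero,
        RingHom.id_apply]
      exact neg_comm' (hxσ x)
    · have h3 := hr.comm (Sum.inr x) (Sum.inr y)
      rw [Fintype.sum_sum_type] at h3 ⊢
      have e3 : ∀ z, (PG g b₀ b₁ p P).C (Sum.inr x) (Sum.inr y) (Sum.inl z) = 0 := fun z => rfl
      simp only [e3, map_zero, zero_smul, Finset.sum_const_zero, zero_add] at h3 ⊢
      exact h3
  · rintro (⟨⟩ | x)
    · have h3 := hr.pow (Sum.inl ())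
      have e2 : ∀ z, (PG g b₀ b₁ p P).Dc (Sum.inl ()) z = 0 := by
        rintro (z | z) <;> rfl
      have e4 : (PG g b₀ b₁ p P).n (Sum.inl ()) = 2 := rfl
      simp only [e2, e4, map_zero, zero_smul, Finset.sum_const_zero, zero_add] at h3 ⊢
      exact neg_pow2 h3
    · have h3 := hr.pow (Sum.inr x)
      rw [Fintype.sum_sum_type] at h3 ⊢
      have e3 : ∀ z, (PG g b₀ b₁ p P).Dc (Sum.inr x) (Sum.inl z) = 0 := by
        rcases x with x | x <;> intro z <;> rfl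
      simp only [e3, map_zero, zero_smul, Finset.sum_const_zero, zero_add] at h3 ⊢
      exact h3

/-- The automorphism changing the sign of the parity operator. -/
noncomputable def piE (g : LieSuper k L₀ L₁) (b₀ : Basis m k L₀) (b₁ : Basis n k L₁) (p : ℕ)
    (P : m → L₀) : EU (PG g b₀ b₁ p P) →+* EU (PG g b₀ b₁ p P) := liftE (piL_rel g b₀ b₁ p P)

/-- The inclusion of the even part. -/
noncomputable def kap (g : LieSuper k L₀ L₁) (b₀ : Basis m k L₀) (b₁ : Basis n k L₁) (p : ℕ)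
    (P : m → L₀) : EU (P0 g b₀ p P) →+* EU (PG g b₀ b₁ p P) :=
  liftE (isRel_even (gE_rel (PG g b₀ b₁ p P)))

end par

end Pool.Agent.Helper56.SKF
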