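import Mathlib
import Pool.Agent.Helper56.SKF.Defs

/-!
# The reduction theorem for all restricted Lie superalgebras: more definitions
-/

namespace Pool.Agent.Helper56.SKF

open Module Pool.Agent.Helper56.SKW Pool.Agent.Helper56.SKW.PBW Pool.Agent.Helper56.SKU
  Pool.Agent.Helper56.SKR

universe u v w

section defs

variable {k : Type u} {L₀ L₁ : Type*} [Field k] [AddCommGroup L₀] [Module k L₀] [AddCommGroup L₁]
  [Module k L₁]

/-- The `p`-character of a representation with respect to a basis. -/
def GRep.Chr {g : LieSuper k L₀ L₁} {m : Type*} {F V : Type*} [Field F] [Algebra k F]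
    [AddCommGroup V] [Module F V] [Module k V] [IsScalarTower k F V]
    (M : GRep g (Module.End F V)) (b : m → L₀) (p : ℕ) (P : m → L₀) (ζ : m → F) : Prop :=
  ∀ i, M.ρ₀ (b i) ^ p - M.ρ₀ (P i) = ζ i • 1

/-- There is an irreducible representation near infinity in direction `θ` whose dimension is
not divisible by a high power of two. -/
def HasNear (p : ℕ) (g : LieSuper k L₀ L₁) (θ : L₀ →ₗ[k] k) : Prop :=
  ∃ (F : Type u) (_ : Field F) (_ : IsAlgClosed F) (_ : Algebra k F) (O : ValuationSubring F)
    (η : O) (V : Type u) (_ : AddCommGroup V) (_ : Module F V) (_ : Module k V)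
    (_ : IsScalarTower k F V) (_ : FiniteDimensional F V) (M : GRep g (Module.End F V)),
    IsLocalRing.residue O η = 0 ∧ (η : F) ≠ 0 ∧ (∀ a : k, algebraMap k F a ∈ O) ∧ M.Irr ∧
    M.Near p θ O η ∧ ¬ 2 ^ ((bOdd g θ + 1) / 2 + 1) ∣ finrank F V

end defs

end Pool.Agent.Helper56.SKF
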