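import Mathlib
import Pool.Agent.Helper56.SKR.Csa
import Pool.Agent.Helper56.SKR.Even

/-!
# Characters of simple algebras
-/

namespace Pool.Agent.Helper56.SKF

open Module Pool.Agent.Helper56.SKR TensorProduct

universe u v w

section cen

attribute [local instance] cenAlg

variable {K S : Type*} [Field K] [Ring S] [Algebra K S]

/-- The centre. -/
abbrev Zc (K S : Type*) [Field K] [Ring S] [Algebra K S] : Subalgebra K S := Subalgebra.center K S

/-- The elements of a basis over the centre act by independent operators. -/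
theorem li_basis [IsSimpleRing S] [FiniteDimensional K S] {F V : Type*} [Field F] [AddCommGroup V]
    [Module F V] [Nontrivial V] (ρ : S →+* Module.End F V) {ι : Type*} [Fintype ι]
    (b : Basis ι (Zc K S) S) : LinearIndependent F (fun i => ρ (b i)) := by
  classical
  rw [Fintype.linearIndependent_iff]
  intro c hc i0
  refine rho_indep K ρ b (fun s => ((b.repr s i0 : Zc K S) : S)) i0 ?_ ?_ ?_ c hc
  · intro z hz s
    let z' : Zc K S := ⟨z, Subalgebra.mem_center_iff.2 (Subring.mem_center_iff.1 hz)⟩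
    have h1 : z * s = z' • s := rfl
    rw [h1, map_smul]
    rfl
  · intro s s'
    rw [map_add]
    rfl
  · intro i
    rw [Basis.repr_self, Finsupp.single_apply]
    by_cases hi : i = i0
    · rw [if_pos hi, if_pos hi]; rfl
    · rw [if_neg hi, if_neg hi]; rfl

end cen

section ch

variable {K F S : Type*} [Field K] [Field F] [Algebra K F] [Ring S] [Algebra K S]

/-- `χ` is the character of an irreducible representation with central character `ω`. -/
def IsCh (ω : Zc K S →ₐ[K] F) (χ : S → F) : Prop :=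
  ∃ (d : ℕ) (q : S →ₐ[K] Matrix (Fin d) (Fin d) F), 0 < d ∧
    (∀ M, M ∈ Submodule.span F (Set.range q)) ∧
    (∀ z : Zc K S, q z = ω z • (1 : Matrix (Fin d) (Fin d) F)) ∧ ∀ s, χ s = (q s).trace

theorem ch_add {ω : Zc K S →ₐ[K] F} {χ : S → F} (h : IsCh ω χ) (s t : S) :
    χ (s + t) = χ s + χ t := by
  obtain ⟨d, q, hd, hsp, hz, hχ⟩ := h
  rw [hχ, hχ, hχ, map_add, Matrix.trace_add]

theorem ch_smul {ω : Zc K S →ₐ[K] F} {χ : S → F} (h : IsCh ω χ) (c : K) (s : S) :
    χ (c • s) = algebraMap K F c * χ s := by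
  obtain ⟨d, q, hd, hsp, hz, hχ⟩ := h
  rw [hχ, hχ, map_smul, Matrix.trace_smul, Algebra.smul_def]

theorem ch_comm {ω : Zc K S →ₐ[K] F} {χ : S → F} (h : IsCh ω χ) (s t : S) :
    χ (s * t) = χ (t * s) := by
  obtain ⟨d, q, hd, hsp, hz, hχ⟩ := h
  rw [hχ, hχ, map_mul, map_mul, Matrix.trace_mul_comm]

theorem ch_cen {ω : Zc K S →ₐ[K] F} {χ : S → F} (h : IsCh ω χ) (z : Zc K S) (s : S) :
    χ ((z : S) * s) = ω z * χ s := by
  obtain ⟨d, q, hd, hsp, hz, hχ⟩ := h
  rw [hχ, hχ, map_mul, hz, smul_mul_assoc, one_mul, Matrix.trace_smul, smul_eq_mul]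

theorem ch_ne {ω : Zc K S →ₐ[K] F} {χ : S → F} (h : IsCh ω χ) : ∃ s, χ s ≠ 0 := by
  obtain ⟨d, q, hd, hsp, hz, hχ⟩ := h
  by_contra hcon
  push Not at hcon
  have h1 : ∀ M : Matrix (Fin d) (Fin d) F, M.trace = 0 := by
    intro M
    have h2 := hsp M
    induction h2 using Submodule.span_induction with
    | mem M hM =>
      obtain ⟨s, rfl⟩ := hM
      rw [← hχ]
      exact hcon s
    | zero => exact Matrix.trace_zero _ _
    | add M N _ _ hM hN => rw [Matrix.trace_add, hM, hN, add_zero]
    | smul c M _ hM => rw [Matrix.trace_smul, hM, smul_zero]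
  have h2 := h1 (Matrix.single ⟨0, hd⟩ ⟨0, hd⟩ 1)
  rw [Matrix.trace_single_eq_same] at h2
  exact one_ne_zero h2

/-- Twisting by an automorphism of the field. -/
theorem ch_twist {ω : Zc K S →ₐ[K] F} {χ : S → F} (h : IsCh ω χ) (γ : F ≃ₐ[K] F) :
    IsCh ((γ : F →ₐ[K] F).comp ω) (fun s => γ (χ s)) := by
  obtain ⟨d, q, hd, hsp, hz, hχ⟩ := h
  refine ⟨d, ((γ : F →ₐ[K] F).mapMatrix).comp q, hd, ?_, ?_, ?_⟩
  · intro M
    have h1 : ∀ N ∈ Submodule.span F (Set.range q), (γ : F →ₐ[K] F).mapMatrix N ∈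
        Submodule.span F (Set.range (((γ : F →ₐ[K] F).mapMatrix).comp q)) := by
      intro N hN
      induction hN using Submodule.span_induction with
      | mem N hN =>
        obtain ⟨s, rfl⟩ := hN
        exact Submodule.subset_span ⟨s, rfl⟩
      | zero => rw [map_zero]; exact Submodule.zero_mem _
      | add M N _ _ hM hN => rw [map_add]; exact Submodule.add_mem _ hM hN
      | smul c M _ hM =>
        have h2 : (γ : F →ₐ[K] F).mapMatrix (c • M) = γ c • (γ : F →ₐ[K] F).mapMatrix M := by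
          ext i j
          simp
        rw [h2]
        exact Submodule.smul_mem _ _ hM
    have h2 : M = (γ : F →ₐ[K] F).mapMatrix ((γ.symm : F →ₐ[K] F).mapMatrix M) := by
      ext i j
      simp
    rw [h2]
    exact h1 _ (hsp _)
  · intro z
    rw [AlgHom.comp_apply, hz]
    ext i j
    by_cases hij : i = j
    · subst hij
      simp
    · simp [hij]
  · intro s
    show γ (χ s) = _
    rw [hχ]
    simp [Matrix.trace, map_sum]

/-- Composition with an automorphism. -/
theorem ch_aut {ω : Zc K S →ₐ[K] F} {χ : S → F} (h : IsCh ω χ) (α : S ≃ₐ[K] S)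
    (ω' : Zc K S →ₐ[K] F) (hω' : ∀ z z' : Zc K S, (z' : S) = α z → ω' z = ω z') :
    IsCh ω' (fun s => χ (α s)) := by
  obtain ⟨d, q, hd, hsp, hz, hχ⟩ := h
  refine ⟨d, q.comp (α : S →ₐ[K] S), hd, ?_, ?_, fun s => hχ _⟩
  · intro M
    have h1 : Set.range (q.comp (α : S →ₐ[K] S)) = Set.range q := by
      ext x
      constructor
      · rintro ⟨s, rfl⟩
        exact ⟨α s, rfl⟩
      · rintro ⟨s, rfl⟩
        exact ⟨α.symm s, by simp⟩
    rw [h1]
    exact hsp M
  · intro z
    have hz' : α (z : S) ∈ Zc K S := by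
      rw [Subalgebra.mem_center_iff]
      intro b
      have h1 := (Subalgebra.mem_center_iff.1 z.2) (α.symm b)
      have h2 := congrArg α h1
      simpa using h2
    show q (α (z : S)) = _
    rw [hω' z ⟨_, hz'⟩ rfl]
    exact hz ⟨_, hz'⟩

/-- Characters are determined by the central character. -/
theorem ch_unique [IsSimpleRing S] [FiniteDimensional K S] {ω : Zc K S →ₐ[K] F} {χ χ' : S → F}
    (h : IsCh ω χ) (h' : IsCh ω χ') (s : S) : χ s = χ' s := by
  classical
  obtain ⟨d, q, hd, hsp, hz, hχ⟩ := h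
  obtain ⟨d', q', hd', hsp', hz', hχ'⟩ := h'
  let Z := Zc K S
  let _ : Field Z := (center_isField K S).toField
  have hZS : Module.Finite Z S := Module.Finite.of_restrictScalars_finite K Z S
  let b := Module.finBasis Z S
  have key : ∀ (d : ℕ) (q : S →ₐ[K] Matrix (Fin d) (Fin d) F), 0 < d →
      (∀ M, M ∈ Submodule.span F (Set.range q)) →
      (∀ z : Zc K S, q z = ω z • (1 : Matrix (Fin d) (Fin d) F)) →
      ∃ B : Basis (Fin (finrank Z S)) F (Matrix (Fin d) (Fin d) F), (∀ i, B i = q (b i)) ∧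
        ∀ s, q s = ∑ i, ω (b.repr s i) • B i := by
    intro d q hd hsp hz
    have hnt : Nonempty (Fin d) := ⟨⟨0, hd⟩⟩
    let e := (Matrix.toLinAlgEquiv' (R := F) (n := Fin d))
    let ρ : S →+* Module.End F (Fin d → F) := (e.toRingEquiv.toRingHom).comp q.toRingHom
    have hli0 : LinearIndependent F (fun i => ρ (b i)) := li_basis (K := K) ρ b
    have hli : LinearIndependent F (fun i => q (b i)) := by
      have h1 := hli0.map' e.symm.toLinearMap (LinearMap.ker_eq_bot.2 e.symm.injective)
      have h2 : (fun i => q (b i)) = e.symm.toLinearMap ∘ fun i => ρ (b i) := by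
        funext i
        exact (e.symm_apply_apply _).symm
      rw [h2]
      exact h1
    have hexp : ∀ s, q s = ∑ i, ω (b.repr s i) • q (b i) := by
      intro s
      conv_lhs => rw [← b.sum_repr s, map_sum]
      refine Finset.sum_congr rfl fun i _ => ?_
      have h4 : b.repr s i • b i = ((b.repr s i : Z) : S) * b i := rfl
      rw [h4, map_mul, hz, smul_mul_assoc, one_mul]
    have hspan : ⊤ ≤ Submodule.span F (Set.range fun i => q (b i)) := by
      intro M _
      refine (Submodule.span_le.2 ?_) (hsp M)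
      rintro _ ⟨s, rfl⟩
      show q s ∈ _
      rw [hexp]
      exact Submodule.sum_mem _ fun i _ => Submodule.smul_mem _ _ (Submodule.subset_span ⟨i, rfl⟩)
    refine ⟨Basis.mk hli hspan, fun i => Basis.mk_apply _ _ i, ?_⟩
    intro s
    rw [hexp]
    refine Finset.sum_congr rfl fun i _ => ?_
    rw [Basis.mk_apply]
  obtain ⟨B, hB, hexp⟩ := key d q hd hsp hz
  obtain ⟨B', hB', hexp'⟩ := key d' q' hd' hsp' hz'
  let Φ : Matrix (Fin d) (Fin d) F ≃ₗ[F] Matrix (Fin d') (Fin d') F := B.equiv B' (Equiv.refl _)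
  have hΦ : ∀ s, Φ (q s) = q' s := by
    intro s
    rw [hexp, hexp', map_sum]
    refine Finset.sum_congr rfl fun i _ => ?_
    rw [map_smul, Basis.equiv_apply, Equiv.refl_apply]
  have hmul : ∀ M N, Φ (M * N) = Φ M * Φ N := by
    intro M N
    have hM := hsp M
    have hN := hsp N
    induction hM using Submodule.span_induction with
    | mem M hM =>
      obtain ⟨s, rfl⟩ := hM
      induction hN using Submodule.span_induction with
      | mem N hN =>
        obtain ⟨t, rfl⟩ := hN
        rw [← map_mul, hΦ, hΦ, hΦ, map_mul]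
      | zero => rw [mul_zero, map_zero, mul_zero]
      | add a b _ _ ha hb => rw [mul_add, map_add, map_add, mul_add, ha, hb]
      | smul c a _ ha => rw [mul_smul_comm, map_smul, map_smul, mul_smul_comm, ha]
    | zero => rw [zero_mul, map_zero, zero_mul]
    | add a b _ _ ha hb => rw [add_mul, map_add, map_add, add_mul, ha, hb]
    | smul c a _ ha => rw [smul_mul_assoc, map_smul, map_smul, smul_mul_assoc, ha]
  have hone : Φ 1 = 1 := by rw [← map_one q, hΦ, map_one]
  let Ψ : Matrix (Fin d) (Fin d) F ≃ₐ[F] Matrix (Fin d') (Fin d') F :=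
    AlgEquiv.ofLinearEquiv Φ hone hmul
  have h5 : Ψ (q s) = q' s := hΦ s
  rw [hχ, hχ', ← h5]
  exact (Matrix.trace_map Ψ (q s)).symm

end ch

section galois

variable {K F : Type*} [Field K] [Field F] [Algebra K F]

/-- Homomorphisms to an algebraic closure are conjugate. -/
theorem exists_conj [Normal K F] {Z : Type*} [CommRing Z] (hZ : IsField Z)
    [Algebra K Z] (ω ω' : Z →ₐ[K] F) : ∃ γ : F ≃ₐ[K] F, ∀ z, γ (ω z) = ω' z := by
  let _ : Field Z := hZ.toField
  let _ : Algebra Z F := ω.toRingHom.toAlgebra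
  have hst : IsScalarTower K Z F := IsScalarTower.of_algebraMap_eq fun c => (ω.commutes c).symm
  let γ : F →ₐ[K] F := ω'.liftNormal F
  have hγ : ∀ z, γ (ω z) = ω' z := fun z => AlgHom.liftNormal_commutes ω' F z
  exact ⟨AlgEquiv.ofBijective γ (AlgHom.normal_bijective K F F γ), hγ⟩

end galois

end Pool.Agent.Helper56.SKF
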