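import Mathlib
import Pool.Agent.Helper56.SKF.Func
import Pool.Agent.Helper56.SKR.Act

/-!
# Characters of irreducible representations
-/

namespace Pool.Agent.Helper56.SKF

open Module Pool.Agent.Helper56.SKR TensorProduct

universe u v w

section irr

attribute [local instance] cenAlg

variable {K F S : Type*} [Field K] [Field F] [IsAlgClosed F] [Algebra K F] [Ring S] [Algebra K S]

/-- The trace of an irreducible representation is a character. -/
theorem ch_of_irr {V : Type*} [AddCommGroup V] [Module F V] [FiniteDimensional F V]
    (ρ : S →+* Module.End F V) (hρ : Irr ρ)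
    (hK : ∀ (c : K) s, ρ (c • s) = algebraMap K F c • ρ s) :
    ∃ ω : Zc K S →ₐ[K] F, IsCh ω (fun s => LinearMap.trace F V (ρ s)) := by
  classical
  have hnt := hρ.1
  obtain ⟨φ, hφ⟩ := exists_char (R := Zc K S) hρ
  have hinj : ∀ a b : F, a • (1 : Module.End F V) = b • (1 : Module.End F V) → a = b := by
    intro a b hab
    obtain ⟨v, hv⟩ := exists_ne (0 : V)
    have h2 := LinearMap.congr_fun hab v
    simp only [LinearMap.smul_apply, Module.End.one_apply] at h2
    exact smul_left_injective F hv h2
  let ω : Zc K S →ₐ[K] F :=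
    { φ with
      commutes' := by
        intro c
        apply hinj
        have h1 := hφ (algebraMap K (Zc K S) c) 1
        have h2 := hK c 1
        rw [map_one] at h1 h2
        have h3 : (algebraMap K (Zc K S) c) • (1 : S) = c • (1 : S) := by
          show (algebraMap K S c) * 1 = c • (1 : S)
          rw [mul_one, Algebra.algebraMap_eq_smul_one]
        rw [h3, h2] at h1
        exact h1.symm }
  have hω : ∀ z : Zc K S, ρ (z : S) = ω z • 1 := by
    intro z
    have h1 := hφ z 1
    rw [map_one] at h1
    have h3 : z • (1 : S) = (z : S) := mul_one _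
    rw [h3] at h1
    exact h1
  let b := Module.finBasis F V
  let e : Module.End F V ≃ₐ[F] Matrix (Fin (finrank F V)) (Fin (finrank F V)) F :=
    LinearMap.toMatrixAlgEquiv b
  let q : S →ₐ[K] Matrix (Fin (finrank F V)) (Fin (finrank F V)) F :=
    { (e.toRingEquiv.toRingHom).comp ρ with
      commutes' := by
        intro c
        show e (ρ (algebraMap K S c)) = _
        rw [Algebra.algebraMap_eq_smul_one (A := S), hK, map_smul, map_one, map_one,
          Algebra.algebraMap_eq_smul_one
            (A := Matrix (Fin (finrank F V)) (Fin (finrank F V)) F), algebraMap_smul] }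
  have hq : ∀ s, q s = e (ρ s) := fun s => rfl
  refine ⟨ω, finrank F V, q, finrank_pos, ?_, ?_, ?_⟩
  · intro M
    have h1 : ∀ f ∈ Submodule.span F (Set.range ρ), e f ∈ Submodule.span F (Set.range q) := by
      intro f hf
      induction hf using Submodule.span_induction with
      | mem f hf =>
        obtain ⟨s, rfl⟩ := hf
        exact Submodule.subset_span ⟨s, rfl⟩
      | zero => rw [map_zero]; exact Submodule.zero_mem _
      | add a b _ _ ha hb => rw [map_add]; exact Submodule.add_mem _ ha hb
      | smul c a _ ha => rw [map_smul]; exact Submodule.smul_mem _ _ ha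
    have h2 := h1 _ (irr_span hρ (e.symm M))
    rwa [AlgEquiv.apply_symm_apply] at h2
  · intro z
    rw [hq, hω, map_smul, map_one]
  · intro s
    show LinearMap.trace F V (ρ s) = (e (ρ s)).trace
    exact LinearMap.trace_eq_matrix_trace F b (ρ s)

/-- Every central character belongs to a character. -/
theorem exists_ch [IsSimpleRing S] [FiniteDimensional K S] [Normal K F]
    (ω : Zc K S →ₐ[K] F) : ∃ χ : S → F, IsCh ω χ := by
  classical
  let B := F ⊗[K] S
  have hntS : Nontrivial S := inferInstance
  have hntB : Nontrivial B := by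
    have h1 : 0 < finrank F B := by
      show 0 < finrank F (F ⊗[K] S)
      rw [Module.finrank_baseChange]
      exact finrank_pos
    exact nontrivial_of_finrank_pos h1
  have hfinB : FiniteDimensional F B := by
    show FiniteDimensional F (F ⊗[K] S)
    infer_instance
  let lm : B →+* Module.End F B := (Algebra.lmul F B).toRingHom
  obtain ⟨W, hW, hW0, hirr⟩ := exists_irr_sub lm
  let i1 : S →+* B := (Algebra.TensorProduct.includeRight : S →ₐ[K] B).toRingHom
  have hi1 : ∀ (c : K) (x : S), i1 (c • x) = algebraMap K F c • i1 x := by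
    intro c x
    show (1 : F) ⊗ₜ[K] (c • x) = algebraMap K F c • ((1 : F) ⊗ₜ[K] x)
    rw [TensorProduct.tmul_smul, TensorProduct.smul_tmul', TensorProduct.smul_tmul',
      Algebra.smul_def, smul_eq_mul]
  let ρ : S →+* Module.End F W := (subRep lm W hW).comp i1
  have hsm : ∀ (c : F) (x : B), subRep lm W hW (c • x) = c • subRep lm W hW x := by
    intro c x
    apply LinearMap.ext
    intro v
    apply Subtype.ext
    show (c • x) * (v : B) = c • (x * (v : B))
    rw [smul_mul_assoc]
  have hρ : Irr ρ := by
    refine ⟨hirr.1, fun U hU => hirr.2 U ?_⟩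
    intro x
    induction x using TensorProduct.induction_on with
    | zero =>
      intro u _
      rw [map_zero]
      exact U.zero_mem
    | tmul c s =>
      intro u hu
      have h1 : c ⊗ₜ[K] s = c • i1 s := by
        show c ⊗ₜ[K] s = c • ((1 : F) ⊗ₜ[K] s)
        rw [TensorProduct.smul_tmul', smul_eq_mul, mul_one]
      rw [h1, hsm]
      exact U.smul_mem c (hU s u hu)
    | add x y hx hy =>
      intro u hu
      rw [map_add]
      exact U.add_mem (hx u hu) (hy u hu)
  obtain ⟨ω₀, h0⟩ := ch_of_irr (K := K) ρ hρ (fun c s => by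
    show subRep lm W hW (i1 (c • s)) = _
    rw [hi1, hsm]
    rfl)
  obtain ⟨γ, hγ⟩ := exists_conj (center_isField K S) ω₀ ω
  have h1 := ch_twist h0 γ
  have h2 : (γ : F →ₐ[K] F).comp ω₀ = ω := AlgHom.ext hγ
  rw [h2] at h1
  exact ⟨_, h1⟩

end irr

end Pool.Agent.Helper56.SKF
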