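import Mathlib
import Pool.Agent.Helper56.SKF.Func2

/-!
# The canonical trace of a simple algebra
-/

namespace Pool.Agent.Helper56.SKF

open Module Pool.Agent.Helper56.SKR TensorProduct

universe u v w

section quot

variable {F V : Type*} [Field F] [AddCommGroup V] [Module F V] [FiniteDimensional F V]

/-- The trace is additive. -/
theorem trace_sub_quot (W : Submodule F V) (f : Module.End F V) (h : ∀ w ∈ W, f w ∈ W) :
    LinearMap.trace F V f = LinearMap.trace F W (f.restrict h) +
      LinearMap.trace F (V ⧸ W) (W.mapQ W f h) := by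
  obtain ⟨s, hs⟩ := LinearMap.exists_rightInverse_of_surjective W.mkQ
    (LinearMap.range_eq_top.2 W.mkQ_surjective)
  have hs' : ∀ x, W.mkQ (s x) = x := fun x => LinearMap.congr_fun hs x
  have hmem : ∀ v, (LinearMap.id - s.comp W.mkQ : V →ₗ[F] V) v ∈ W := by
    intro v
    rw [← Submodule.Quotient.mk_eq_zero, ← Submodule.mkQ_apply]
    show W.mkQ (v - s (W.mkQ v)) = 0
    rw [map_sub, hs', sub_self]
  let π : V →ₗ[F] W := (LinearMap.id - s.comp W.mkQ : V →ₗ[F] V).codRestrict W hmem
  have hid : (f : V →ₗ[F] V) = (f.comp W.subtype).comp π + (f.comp s).comp W.mkQ := by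
    apply LinearMap.ext
    intro v
    show f v = f (v - s (W.mkQ v)) + f (s (W.mkQ v))
    rw [← map_add, sub_add_cancel]
  have h1 : π.comp (f.comp W.subtype) = f.restrict h := by
    apply LinearMap.ext
    intro w
    apply Subtype.ext
    show f w - s (W.mkQ (f w)) = f w
    have h2 : W.mkQ (f w) = 0 := by
      rw [Submodule.mkQ_apply, Submodule.Quotient.mk_eq_zero]
      exact h w w.2
    rw [h2, map_zero, sub_zero]
  have h2 : W.mkQ.comp (f.comp s) = W.mapQ W f h := by
    apply LinearMap.ext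
    intro x
    obtain ⟨v, rfl⟩ := W.mkQ_surjective x
    show W.mkQ (f (s (W.mkQ v))) = W.mkQ (f v)
    rw [← sub_eq_zero, ← map_sub, ← map_sub, Submodule.mkQ_apply, Submodule.Quotient.mk_eq_zero]
    apply h
    rw [← Submodule.Quotient.mk_eq_zero, ← Submodule.mkQ_apply, map_sub, hs', sub_self]
  conv_lhs => rw [hid]
  rw [map_add, LinearMap.trace_comp_comm' π (f.comp W.subtype),
    LinearMap.trace_comp_comm' W.mkQ (f.comp s), h1, h2]

end quot

section can

variable {K F S : Type*} [Field K] [Field F] [IsAlgClosed F] [Algebra K F] [Normal K F] [Ring S]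
  [Algebra K S] [IsSimpleRing S] [FiniteDimensional K S]

/-- The character with a given central character. -/
noncomputable def chf (ω : Zc K S →ₐ[K] F) : S → F := (exists_ch ω).choose

theorem chf_is (ω : Zc K S →ₐ[K] F) : IsCh ω (chf ω) := (exists_ch ω).choose_spec

omit [Normal K F] in
theorem nonempty_hom : Nonempty (Zc K S →ₐ[K] F) := by
  let _ : Field (Zc K S) := (center_isField K S).toField
  have : Algebra.IsAlgebraic K (Zc K S) := Algebra.IsAlgebraic.of_finite K (Zc K S)
  exact ⟨IsAlgClosed.lift (R := K) (S := Zc K S) (M := F)⟩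

noncomputable instance : Fintype (Zc K S →ₐ[K] F) := minpoly.AlgHom.fintype K (Zc K S) F

/-- The characters are independent. -/
theorem ch_indep (c : (Zc K S →ₐ[K] F) → F) (h : ∀ s, ∑ ω, c ω * chf ω s = 0)
    (ω : Zc K S →ₐ[K] F) : c ω = 0 := by
  obtain ⟨s, hs⟩ := ch_ne (chf_is ω)
  have h1 := linearIndependent_toLinearMap K (Zc K S) F
  rw [Fintype.linearIndependent_iff] at h1
  have h2 := h1 (fun ω' => c ω' * chf ω' s) (by
    apply LinearMap.ext
    intro z
    rw [LinearMap.sum_apply, LinearMap.zero_apply]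
    have h3 := h ((z : S) * s)
    rw [← h3]
    refine Finset.sum_congr rfl fun ω' _ => ?_
    rw [ch_cen (chf_is ω'), LinearMap.smul_apply, AlgHom.toLinearMap_apply, smul_eq_mul]
    ring) ω
  exact (mul_eq_zero.1 h2).resolve_right hs

variable (K F S) in
/-- The canonical trace. -/
noncomputable def Ts (s : S) : F := ∑ ω : Zc K S →ₐ[K] F, chf ω s

theorem ts_add (s t : S) : Ts K F S (s + t) = Ts K F S s + Ts K F S t := by
  unfold Ts
  rw [← Finset.sum_add_distrib]
  exact Finset.sum_congr rfl fun ω _ => ch_add (chf_is ω) s t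

theorem ts_smul (c : K) (s : S) : Ts K F S (c • s) = algebraMap K F c * Ts K F S s := by
  unfold Ts
  rw [Finset.mul_sum]
  exact Finset.sum_congr rfl fun ω _ => ch_smul (chf_is ω) c s

theorem ts_comm (s t : S) : Ts K F S (s * t) = Ts K F S (t * s) := by
  unfold Ts
  exact Finset.sum_congr rfl fun ω _ => ch_comm (chf_is ω) s t

theorem ts_ne : ∃ s, Ts K F S s ≠ 0 := by
  by_contra hcon
  push Not at hcon
  obtain ⟨ω⟩ := nonempty_hom (K := K) (F := F) (S := S)
  have h1 := ch_indep (K := K) (F := F) (S := S) (fun _ => 1) (fun s => by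
    simp only [one_mul]
    exact hcon s) ω
  exact one_ne_zero h1

theorem gal_chf (γ : F ≃ₐ[K] F) (ω : Zc K S →ₐ[K] F) (s : S) :
    γ (chf ω s) = chf ((γ : F →ₐ[K] F).comp ω) s :=
  ch_unique (ch_twist (chf_is ω) γ) (chf_is _) s

/-- The Galois action on the central characters. -/
noncomputable def galP (γ : F ≃ₐ[K] F) : Equiv.Perm (Zc K S →ₐ[K] F) where
  toFun ω := (γ : F →ₐ[K] F).comp ω
  invFun ω := (γ.symm : F →ₐ[K] F).comp ω
  left_inv ω := by
    apply AlgHom.ext
    intro z
    simp
  right_inv ω := by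
    apply AlgHom.ext
    intro z
    simp

theorem ts_gal (γ : F ≃ₐ[K] F) (s : S) : γ (Ts K F S s) = Ts K F S s := by
  unfold Ts
  rw [map_sum]
  refine Fintype.sum_equiv (galP γ) _ _ fun ω => ?_
  exact gal_chf γ ω s

/-- An automorphism acts on the centre. -/
theorem aut_center (α : S ≃ₐ[K] S) {z : S} (hz : z ∈ Zc K S) : α z ∈ Zc K S := by
  rw [Subalgebra.mem_center_iff] at hz ⊢
  intro b
  have h1 := hz (α.symm b)
  have h2 := congrArg α h1
  simpa using h2

/-- The action of an automorphism on the centre. -/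
noncomputable def cenA (α : S ≃ₐ[K] S) : Zc K S →ₐ[K] Zc K S :=
  ((α : S →ₐ[K] S).comp (Zc K S).val).codRestrict (Zc K S) fun z => aut_center α z.2

theorem ts_aut (α : S ≃ₐ[K] S) (s : S) : Ts K F S (α s) = Ts K F S s := by
  unfold Ts
  let e : Equiv.Perm (Zc K S →ₐ[K] F) :=
    { toFun := fun ω => ω.comp (cenA α)
      invFun := fun ω => ω.comp (cenA α.symm)
      left_inv := by
        intro ω
        apply AlgHom.ext
        intro z
        show ω (cenA α (cenA α.symm z)) = ω z
        congr 1
        apply Subtype.ext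
        show α (α.symm (z : S)) = z
        exact α.apply_symm_apply _
      right_inv := by
        intro ω
        apply AlgHom.ext
        intro z
        show ω (cenA α.symm (cenA α z)) = ω z
        congr 1
        apply Subtype.ext
        show α.symm (α (z : S)) = z
        exact α.symm_apply_apply _ }
  refine Fintype.sum_equiv e _ _ fun ω => ?_
  refine ch_unique (ch_aut (chf_is ω) α (e ω) ?_) (chf_is _) s
  intro z z' hzz
  show ω (cenA α z) = ω z'
  congr 1
  apply Subtype.ext
  exact hzz.symm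

/-- The trace of a representation is a sum of characters. -/
theorem trace_sum : ∀ (N : ℕ) (V : Type v) [AddCommGroup V] [Module F V] [FiniteDimensional F V]
    (ρ : S →+* Module.End F V), (∀ (c : K) s, ρ (c • s) = algebraMap K F c • ρ s) →
    finrank F V ≤ N → ∃ n : (Zc K S →ₐ[K] F) → ℕ, ∀ s,
      LinearMap.trace F V (ρ s) = ∑ ω, (n ω : F) * chf ω s := by
  intro N
  induction N with
  | zero =>
    intro V _ _ _ ρ hρ hN
    refine ⟨fun _ => 0, fun s => ?_⟩
    have h1 : Subsingleton V := finrank_zero_iff.1 (Nat.le_zero.1 hN)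
    have h2 : ρ s = 0 := by
      apply LinearMap.ext
      intro v
      exact Subsingleton.elim _ _
    rw [h2, map_zero]
    simp
  | succ N ih =>
    intro V _ _ _ ρ hρ hN
    rcases subsingleton_or_nontrivial V with hV | hV
    · refine ⟨fun _ => 0, fun s => ?_⟩
      have h2 : ρ s = 0 := by
        apply LinearMap.ext
        intro v
        exact Subsingleton.elim _ _
      rw [h2, map_zero]
      simp
    · obtain ⟨W, hW, hW0, hirr⟩ := exists_irr_sub ρ
      have h1 := Submodule.finrank_quotient_add_finrank W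
      have h2 : 0 < finrank F W := by
        have := Submodule.nontrivial_iff_ne_bot.2 hW0
        exact finrank_pos
      obtain ⟨n, hn⟩ := ih (V ⧸ W) (quotRep ρ W hW) (fun c s => by
        apply LinearMap.ext
        intro v
        obtain ⟨v, rfl⟩ := W.mkQ_surjective v
        rw [quotRep_mk, hρ, LinearMap.smul_apply, LinearMap.smul_apply, map_smul, quotRep_mk])
        (by omega)
      obtain ⟨ω₀, h0⟩ := ch_of_irr (K := K) (subRep ρ W hW) hirr (fun c s => by
        apply LinearMap.ext
        intro v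
        apply Subtype.ext
        rw [subRep_apply, hρ]
        rfl)
      classical
      refine ⟨fun ω => (if ω = ω₀ then 1 else 0) + n ω, fun s => ?_⟩
      have h3 : LinearMap.trace F V (ρ s) = LinearMap.trace F W (subRep ρ W hW s) +
          LinearMap.trace F (V ⧸ W) (quotRep ρ W hW s) := trace_sub_quot W (ρ s) (hW s)
      rw [h3, hn, ch_unique h0 (chf_is ω₀) s]
      push_cast
      simp only [add_mul, Finset.sum_add_distrib, ite_mul, one_mul, zero_mul,
        Finset.sum_ite_eq', Finset.mem_univ, if_true]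

/-- The restriction of the canonical trace. -/
theorem ts_restr {Δ : Type*} [Ring Δ] [Algebra K Δ] [IsSimpleRing Δ] [FiniteDimensional K Δ]
    (κ : Δ →ₐ[K] S) : ∃ c : F, ∀ d, Ts K F S (κ d) = c * Ts K F Δ d := by
  classical
  have h1 : ∀ ω : Zc K S →ₐ[K] F, ∃ n : (Zc K Δ →ₐ[K] F) → ℕ, ∀ d,
      chf ω (κ d) = ∑ ω', (n ω' : F) * chf ω' d := by
    intro ω
    obtain ⟨d, q, hd, hsp, hz, hχ⟩ := chf_is ω
    let e := (Matrix.toLinAlgEquiv' (R := F) (n := Fin d))
    let ρ : Δ →+* Module.End F (Fin d → F) :=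
      (e.toRingEquiv.toRingHom).comp (q.comp κ).toRingHom
    obtain ⟨n, hn⟩ := trace_sum (K := K) (S := Δ) (F := F) _ (Fin d → F) ρ (fun c s => by
      show e (q (κ (c • s))) = algebraMap K F c • e (q (κ s))
      rw [map_smul κ, map_smul q, ← algebraMap_smul F c (q (κ s)), map_smul]) le_rfl
    refine ⟨n, fun x => ?_⟩
    rw [hχ, ← hn]
    show (q (κ x)).trace = LinearMap.trace F (Fin d → F) (Matrix.toLin' (q (κ x)))
    rw [Matrix.trace_toLin'_eq]
  choose n hn using h1
  let N : (Zc K Δ →ₐ[K] F) → ℕ := fun ω' => ∑ ω, n ω ω'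
  have hN : ∀ d, Ts K F S (κ d) = ∑ ω', (N ω' : F) * chf ω' d := by
    intro d
    unfold Ts
    simp only [hn, N, Nat.cast_sum, Finset.sum_mul]
    rw [Finset.sum_comm]
  have hinv : ∀ (γ : F ≃ₐ[K] F) (ω' : Zc K Δ →ₐ[K] F), (N (galP γ ω') : F) = N ω' := by
    intro γ ω'
    have h2 : ∀ d : Δ, ∑ ω', ((N (galP γ ω') : F) - N ω') * chf (galP γ ω') d = 0 := by
      intro d
      have h3 := congrArg γ (hN d)
      rw [ts_gal, map_sum] at h3
      have h4 : ∑ ω', (N (galP γ ω') : F) * chf (galP γ ω') d = Ts K F S (κ d) := by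
        rw [hN]
        exact Fintype.sum_equiv (galP γ) _ _ fun ω => rfl
      simp only [sub_mul, Finset.sum_sub_distrib]
      rw [h4, h3, sub_eq_zero]
      refine Finset.sum_congr rfl fun ω _ => ?_
      rw [map_mul, map_natCast, gal_chf]
      rfl
    have h5 := ch_indep (K := K) (F := F) (S := Δ)
      (fun ω => (N (galP γ ((galP γ).symm ω)) : F) - N ((galP γ).symm ω)) (fun s => by
        rw [← h2 s]
        refine Fintype.sum_equiv (galP γ).symm _ _ fun ω => ?_
        rw [Equiv.apply_symm_apply]) (galP γ ω')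
    rw [Equiv.symm_apply_apply] at h5
    exact sub_eq_zero.1 h5
  obtain ⟨ω₀⟩ := nonempty_hom (K := K) (F := F) (S := Δ)
  refine ⟨(N ω₀ : F), fun d => ?_⟩
  rw [hN]
  unfold Ts
  rw [Finset.mul_sum]
  refine Finset.sum_congr rfl fun ω _ => ?_
  obtain ⟨γ, hγ⟩ := exists_conj (center_isField K Δ) ω₀ ω
  have h6 : galP γ ω₀ = ω := AlgHom.ext hγ
  rw [← h6, hinv]

end can

end Pool.Agent.Helper56.SKF
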