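import Mathlib
import Pool.Agent.Helper56.SKF.Func3
import Pool.Agent.Helper56.SKR.Num

/-!
# Uniqueness of the generic kernel
-/

namespace Pool.Agent.Helper56.SKF

open Module Pool.Agent.Helper56.SKR TensorProduct

universe u v w

section clear

variable {R K A S : Type*} [CommRing R] [IsDomain R] [Field K] [Algebra R K] [IsFractionRing R K]
  [Ring A] [Algebra R A] [Ring S] [Algebra K S] (q : A →+* S)
  (hq : ∀ (r : R) a, q (r • a) = algebraMap R K r • q a)
  (hsp : ∀ x : S, x ∈ Submodule.span K (Set.range q))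

include hq in
/-- Clearing denominators. -/
theorem clear_den (I : Set A) (hI0 : (0 : A) ∈ I) (hIa : ∀ a ∈ I, ∀ b ∈ I, a + b ∈ I)
    (hIs : ∀ (r : R), ∀ a ∈ I, r • a ∈ I) (x : S) (hx : x ∈ Submodule.span K (q '' I)) :
    ∃ (r : R) (a : A), r ≠ 0 ∧ a ∈ I ∧ algebraMap R K r • x = q a := by
  induction hx using Submodule.span_induction with
  | mem x hx =>
    obtain ⟨a, ha, rfl⟩ := hx
    exact ⟨1, a, one_ne_zero, ha, by rw [map_one, one_smul]⟩
  | zero => exact ⟨1, 0, one_ne_zero, hI0, by rw [map_one, one_smul, map_zero]⟩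
  | add x y _ _ hx hy =>
    obtain ⟨r, a, hr, haI, ha⟩ := hx
    obtain ⟨s, c, hs, hcI, hc⟩ := hy
    refine ⟨r * s, s • a + r • c, mul_ne_zero hr hs, hIa _ (hIs _ _ haI) _ (hIs _ _ hcI), ?_⟩
    rw [map_mul, map_add, hq, hq, ← ha, ← hc, smul_add, smul_smul, smul_smul]
    congr 1
    rw [mul_comm]
  | smul c x _ hx =>
    obtain ⟨r, a, hr, haI, ha⟩ := hx
    obtain ⟨s, t, ht, rfl⟩ := IsFractionRing.div_surjective (A := R) c
    have ht0 : t ≠ 0 := nonZeroDivisors.ne_zero ht
    have ht1 : algebraMap R K t ≠ 0 := by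
      rw [Ne, map_eq_zero_iff _ (IsFractionRing.injective R K)]
      exact ht0
    refine ⟨r * t, s • a, mul_ne_zero hr ht0, hIs _ _ haI, ?_⟩
    rw [map_mul, hq, ← ha, smul_smul, smul_smul]
    congr 1
    field_simp

include hsp in
/-- Two sided ideals of `A` with non-zero image generate `S`. -/
theorem span_ideal [IsSimpleRing S] (I : Set A) (hIl : ∀ a, ∀ x ∈ I, a * x ∈ I)
    (hIr : ∀ a, ∀ x ∈ I, x * a ∈ I) (hI : ∃ x ∈ I, q x ≠ 0) (s : S) :
    s ∈ Submodule.span K (q '' I) := by
  obtain ⟨x, hx, hx0⟩ := hI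
  let N : TwoSidedIdeal S := TwoSidedIdeal.mk' (Submodule.span K (q '' I) : Set S)
    (Submodule.zero_mem _) (fun {_ _} => Submodule.add_mem _) (fun {_} => Submodule.neg_mem _)
    (by
      intro a y hy
      have ha := hsp a
      induction ha using Submodule.span_induction with
      | mem a ha =>
        obtain ⟨a, rfl⟩ := ha
        induction hy using Submodule.span_induction with
        | mem y hy =>
          obtain ⟨c, hc, rfl⟩ := hy
          exact Submodule.subset_span ⟨a * c, hIl a c hc, map_mul q a c⟩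
        | zero => rw [mul_zero]; exact Submodule.zero_mem _
        | add y z _ _ hy hz => rw [mul_add]; exact Submodule.add_mem _ hy hz
        | smul c y _ hy => rw [mul_smul_comm]; exact Submodule.smul_mem _ _ hy
      | zero => rw [zero_mul]; exact Submodule.zero_mem _
      | add a b _ _ ha hb => rw [add_mul]; exact Submodule.add_mem _ ha hb
      | smul c a _ ha => rw [smul_mul_assoc]; exact Submodule.smul_mem _ _ ha)
    (by
      intro y a hy
      have ha := hsp a
      induction ha using Submodule.span_induction with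
      | mem a ha =>
        obtain ⟨a, rfl⟩ := ha
        induction hy using Submodule.span_induction with
        | mem y hy =>
          obtain ⟨c, hc, rfl⟩ := hy
          exact Submodule.subset_span ⟨c * a, hIr a c hc, map_mul q c a⟩
        | zero => rw [zero_mul]; exact Submodule.zero_mem _
        | add y z _ _ hy hz => rw [add_mul]; exact Submodule.add_mem _ hy hz
        | smul c y _ hy => rw [smul_mul_assoc]; exact Submodule.smul_mem _ _ hy
      | zero => rw [mul_zero]; exact Submodule.zero_mem _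
      | add a b _ _ ha hb => rw [mul_add]; exact Submodule.add_mem _ ha hb
      | smul c a _ ha => rw [mul_smul_comm]; exact Submodule.smul_mem _ _ ha)
  have h1 : (1 : S) ∈ N := IsSimpleRing.one_mem_of_ne_zero_mem N hx0
    ((TwoSidedIdeal.mem_mk' _ _ _ _ _ _ _).2 (Submodule.subset_span ⟨x, hx, rfl⟩))
  have h2 := (TwoSidedIdeal.mem_mk' _ _ _ _ _ _ _).1 (N.mul_mem_left s 1 h1)
  rw [mul_one] at h2
  exact h2

include hq hsp in
/-- The automorphism induced by an involution which preserves the kernel. -/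
theorem exists_autS (π : A →+* A) (hπ : ∀ (r : R) a, π (r • a) = r • π a)
    (hππ : ∀ a, π (π a) = a) (hker : ∀ a, q a = 0 → q (π a) = 0) :
    ∃ α : S ≃ₐ[K] S, ∀ a, α (q a) = q (π a) := by
  classical
  have hne : ∀ {r : R}, r ≠ 0 → algebraMap R K r ≠ 0 := fun {r} hr => by
    rw [Ne, map_eq_zero_iff _ (IsFractionRing.injective R K)]
    exact hr
  have hcl : ∀ x : S, ∃ (r : R) (a : A), r ≠ 0 ∧ algebraMap R K r • x = q a := by
    intro x
    obtain ⟨r, a, hr, -, h⟩ := clear_den (K := K) q hq Set.univ trivial (fun _ _ _ _ => trivial)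
      (fun _ _ _ => trivial) x (by rw [Set.image_univ]; exact hsp x)
    exact ⟨r, a, hr, h⟩
  let G : S → S → Prop := fun s t => ∃ (r : R) (a : A), r ≠ 0 ∧ algebraMap R K r • s = q a ∧
    algebraMap R K r • t = q (π a)
  have hfun : ∀ {s t t'}, G s t → G s t' → t = t' := by
    rintro s t t' ⟨r, a, hr, h1, h2⟩ ⟨r', a', hr', h1', h2'⟩
    have h3 : q (r' • a - r • a') = 0 := by
      rw [map_sub, hq, hq, ← h1, ← h1', smul_smul, smul_smul, mul_comm, sub_self]
    have h4 := hker _ h3
    rw [map_sub, hπ, hπ, map_sub, hq, hq, ← h2, ← h2', smul_smul, smul_smul, mul_comm,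
      ← smul_sub] at h4
    have h5 := (smul_eq_zero.1 h4).resolve_left (mul_ne_zero (hne hr) (hne hr'))
    exact sub_eq_zero.1 h5
  have htot : ∀ s, ∃ t, G s t := by
    intro s
    obtain ⟨r, a, hr, h⟩ := hcl s
    refine ⟨(algebraMap R K r)⁻¹ • q (π a), r, a, hr, h, ?_⟩
    rw [smul_smul, mul_inv_cancel₀ (hne hr), one_smul]
  choose α hα using htot
  have hsymm : ∀ {s t}, G s t → G t s := by
    rintro s t ⟨r, a, hr, h1, h2⟩
    exact ⟨r, π a, hr, h2, by rw [hππ]; exact h1⟩
  have hinv : ∀ s, α (α s) = s := fun s => hfun (hα (α s)) (hsymm (hα s))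
  have hGq : ∀ a, G (q a) (q (π a)) := fun a => ⟨1, a, one_ne_zero, by simp, by simp⟩
  have hq' : ∀ a, α (q a) = q (π a) := fun a => hfun (hα _) (hGq a)
  have hadd : ∀ s t, α (s + t) = α s + α t := by
    intro s t
    refine hfun (hα _) ?_
    obtain ⟨r, a, hr, h1, h2⟩ := hα s
    obtain ⟨r', a', hr', h1', h2'⟩ := hα t
    refine ⟨r * r', r' • a + r • a', mul_ne_zero hr hr', ?_, ?_⟩
    · rw [map_add, hq, hq, ← h1, ← h1', map_mul, smul_add, smul_smul, smul_smul,
        mul_comm (algebraMap R K r)]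
    · rw [map_add, hπ, hπ, map_add, hq, hq, ← h2, ← h2', map_mul, smul_add, smul_smul, smul_smul,
        mul_comm (algebraMap R K r)]
  have hmul : ∀ s t, α (s * t) = α s * α t := by
    intro s t
    refine hfun (hα _) ?_
    obtain ⟨r, a, hr, h1, h2⟩ := hα s
    obtain ⟨r', a', hr', h1', h2'⟩ := hα t
    refine ⟨r * r', a * a', mul_ne_zero hr hr', ?_, ?_⟩
    · rw [map_mul, map_mul, ← h1, ← h1', smul_mul_smul_comm]
    · rw [map_mul, map_mul, map_mul, ← h2, ← h2', smul_mul_smul_comm]
  have hsmul : ∀ (c : K) s, α (c • s) = c • α s := by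
    intro c s
    refine hfun (hα _) ?_
    obtain ⟨r, a, hr, h1, h2⟩ := hα s
    obtain ⟨x, t, ht, rfl⟩ := IsFractionRing.div_surjective (A := R) c
    have ht0 : t ≠ 0 := nonZeroDivisors.ne_zero ht
    refine ⟨r * t, x • a, mul_ne_zero hr ht0, ?_, ?_⟩
    · rw [map_mul, hq, ← h1, smul_smul, smul_smul]
      congr 1
      have := hne ht0
      field_simp
    · rw [map_mul, hπ, hq, ← h2, smul_smul, smul_smul]
      congr 1
      have := hne ht0
      field_simp
  have hone : α 1 = 1 := by
    have h1 := hq' 1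
    rwa [map_one, map_one, map_one] at h1
  let αA : S →ₐ[K] S := AlgHom.ofLinearMap
    { toFun := α, map_add' := hadd, map_smul' := hsmul } hone hmul
  refine ⟨AlgEquiv.ofAlgHom αA αA (AlgHom.ext hinv) (AlgHom.ext hinv), hq'⟩

variable {F : Type*} [Field F] [IsAlgClosed F] [Algebra K F] [Normal K F] [IsSimpleRing S]
  [FiniteDimensional K S]

omit [IsDomain R] [IsFractionRing R K] [Algebra R A] [Algebra R K] [CommRing R] in
include hsp in
theorem ts_ideal (I : Set A) (hIl : ∀ a, ∀ x ∈ I, a * x ∈ I)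
    (hIr : ∀ a, ∀ x ∈ I, x * a ∈ I) (hI : ∃ x ∈ I, q x ≠ 0) : ∃ x ∈ I, Ts K F S (q x) ≠ 0 := by
  by_contra hcon
  push Not at hcon
  obtain ⟨s, hs⟩ := ts_ne (K := K) (F := F) (S := S)
  apply hs
  have h1 := span_ideal (K := K) q hsp I hIl hIr hI s
  induction h1 using Submodule.span_induction with
  | mem x hx =>
    obtain ⟨a, ha, rfl⟩ := hx
    exact hcon a ha
  | zero =>
    have h2 := ts_smul (K := K) (F := F) (S := S) 0 0
    rw [zero_smul, map_zero, zero_mul] at h2
    exact h2
  | add x y _ _ hx hy =>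
    rw [ts_add]
    by_cases h3 : Ts K F S x = 0
    · by_cases h4 : Ts K F S y = 0
      · rw [h3, h4, add_zero]
      · exact absurd (hy h4) h4
    · exact absurd (hx h3) h3
  | smul c x _ hx =>
    rw [ts_smul]
    by_cases h3 : Ts K F S x = 0
    · rw [h3, mul_zero]
    · exact absurd (hx h3) h3

end clear

end Pool.Agent.Helper56.SKF
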