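import Mathlib
import Pool.Agent.Helper56.SKF.Uniq

/-!
# Uniqueness of the generic kernel: the main statement
-/

namespace Pool.Agent.Helper56.SKF

open Module Pool.Agent.Helper56.SKR TensorProduct

universe u v w

section fin

variable {R K A : Type u} [CommRing R] [IsDomain R] [Field K] [Algebra R K] [IsFractionRing R K]
  [Ring A] [Algebra R A] {F : Type u} [Field F] [IsAlgClosed F] [Algebra K F] [Normal K F]

theorem ts_zero {S : Type*} [Ring S] [Algebra K S] [IsSimpleRing S] [FiniteDimensional K S] :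
    Ts K F S 0 = 0 := by
  have h2 := ts_smul (K := K) (F := F) (S := S) 0 0
  rw [zero_smul, map_zero, zero_mul] at h2
  exact h2

/-- The symmetrised canonical trace does not vanish on ideals. -/
theorem nv {S : Type*} [Ring S] [Algebra K S] [IsSimpleRing S] [FiniteDimensional K S]
    (q : A →+* S) (hq : ∀ (r : R) a, q (r • a) = algebraMap R K r • q a)
    (hsp : ∀ x : S, x ∈ Submodule.span K (Set.range q)) (π : A →+* A)
    (hπ : ∀ (r : R) a, π (r • a) = r • π a) (hππ : ∀ a, π (π a) = a) (h2 : (2 : F) ≠ 0)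
    (I : Set A) (hIl : ∀ a, ∀ x ∈ I, a * x ∈ I) (hIr : ∀ a, ∀ x ∈ I, x * a ∈ I)
    (hI : ∃ x ∈ I, q x ≠ 0) : ∃ a ∈ I, Ts K F S (q a) + Ts K F S (q (π a)) ≠ 0 := by
  by_contra hcon
  push Not at hcon
  by_cases hc : ∃ a0, q a0 ≠ 0 ∧ q (π a0) = 0
  · obtain ⟨a0, ha0, ha0'⟩ := hc
    obtain ⟨x, hx, hx0⟩ := hI
    have h3 : ∃ y ∈ {y | y ∈ I ∧ q (π y) = 0}, q y ≠ 0 := by
      by_contra h'
      push Not at h'
      have h4 : ∀ u, q a0 * q u * q x = 0 := by
        intro u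
        have h5 := h' (a0 * u * x) ⟨hIl _ _ hx, by rw [map_mul, map_mul, map_mul, map_mul, ha0',
          zero_mul, zero_mul]⟩
        rwa [map_mul, map_mul] at h5
      have h6 := span_ideal (K := K) q hsp {y | ∀ u, q a0 * q u * q y = 0} (by
        intro a y hy u
        have h7 := hy (u * a)
        rw [map_mul] at h7
        rw [map_mul, ← h7]
        simp only [mul_assoc]) (by
        intro a y hy u
        rw [map_mul, ← mul_assoc, hy u, zero_mul]) ⟨x, h4, hx0⟩ 1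
      have h7 : ∀ s ∈ Submodule.span K (q '' {y | ∀ u, q a0 * q u * q y = 0}), q a0 * s = 0 := by
        intro s hs
        induction hs using Submodule.span_induction with
        | mem s hs =>
          obtain ⟨y, hy, rfl⟩ := hs
          have h8 := hy 1
          rwa [map_one, mul_one] at h8
        | zero => rw [mul_zero]
        | add s t _ _ hs ht => rw [mul_add, hs, ht, add_zero]
        | smul c s _ hs => rw [mul_smul_comm, hs, smul_zero]
      apply ha0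
      have h8 := h7 1 h6
      rwa [mul_one] at h8
    obtain ⟨y, ⟨hyI, hy0⟩, hy⟩ := ts_ideal (K := K) (F := F) q hsp {y | y ∈ I ∧ q (π y) = 0}
      (by
        rintro a y ⟨hy, hy'⟩
        exact ⟨hIl a y hy, by rw [map_mul, map_mul, hy', mul_zero]⟩)
      (by
        rintro a y ⟨hy, hy'⟩
        exact ⟨hIr a y hy, by rw [map_mul, map_mul, hy', zero_mul]⟩) h3
    apply hy
    have h5 := hcon y hyI
    rw [hy0, ts_zero, add_zero] at h5
    exact h5
  · push Not at hc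
    have hker : ∀ a, q a = 0 → q (π a) = 0 := by
      intro a ha
      by_contra h3
      apply hc (π a) h3
      rw [hππ]
      exact ha
    obtain ⟨α, hα⟩ := exists_autS (K := K) q hq hsp π hπ hππ hker
    obtain ⟨y, hyI, hy⟩ := ts_ideal (K := K) (F := F) q hsp I hIl hIr hI
    apply hy
    have h5 := hcon y hyI
    rw [← hα, ts_aut, ← two_mul] at h5
    exact (mul_eq_zero.1 h5).resolve_left h2

theorem uniq_core {A₀ Δ S₁ S₂ : Type*} [Ring A₀] [Ring Δ] [Algebra K Δ] [IsSimpleRing Δ]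
    [FiniteDimensional K Δ] [Ring S₁] [Algebra K S₁] [IsSimpleRing S₁] [FiniteDimensional K S₁]
    [Ring S₂] [Algebra K S₂] [IsSimpleRing S₂] [FiniteDimensional K S₂]
    (q₁ : A →+* S₁) (hq₁ : ∀ (r : R) a, q₁ (r • a) = algebraMap R K r • q₁ a)
    (hsp₁ : ∀ x, x ∈ Submodule.span K (Set.range q₁))
    (q₂ : A →+* S₂) (hq₂ : ∀ (r : R) a, q₂ (r • a) = algebraMap R K r • q₂ a)
    (hsp₂ : ∀ x, x ∈ Submodule.span K (Set.range q₂))
    (κ : A₀ →+* A) (i0 : A₀ →+* Δ) (κ₁ : Δ →ₐ[K] S₁) (κ₂ : Δ →ₐ[K] S₂)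
    (hκ₁ : ∀ a, κ₁ (i0 a) = q₁ (κ a)) (hκ₂ : ∀ a, κ₂ (i0 a) = q₂ (κ a))
    (π : A →+* A) (hπ : ∀ (r : R) a, π (r • a) = r • π a) (hππ : ∀ a, π (π a) = a)
    (hπκ : ∀ a, π (κ a) = κ a) (h2 : (2 : F) ≠ 0)
    (htr : ∀ f : A →+ F, (∀ (r : R) a, f (r • a) = algebraMap K F (algebraMap R K r) * f a) →
      (∀ a b, f (a * b) = f (b * a)) → (∀ a, f (π a) = f a) → (∀ a, f (κ a) = 0) → ∀ a, f a = 0)
    (a : A) (h1 : q₁ a = 0) (h1' : q₁ (π a) = 0) : q₂ a = 0 := by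
  obtain ⟨c₁, hc₁⟩ := ts_restr (K := K) (F := F) κ₁
  obtain ⟨c₂, hc₂⟩ := ts_restr (K := K) (F := F) κ₂
  let f₁ : A → F := fun a => Ts K F S₁ (q₁ a) + Ts K F S₁ (q₁ (π a))
  let f₂ : A → F := fun a => Ts K F S₂ (q₂ a) + Ts K F S₂ (q₂ (π a))
  have fadd₁ : ∀ a b, f₁ (a + b) = f₁ a + f₁ b := by
    intro a b
    show Ts K F S₁ (q₁ (a + b)) + Ts K F S₁ (q₁ (π (a + b))) = _
    rw [map_add, map_add, map_add, ts_add, ts_add]
    show _ = (Ts K F S₁ (q₁ a) + Ts K F S₁ (q₁ (π a))) + (Ts K F S₁ (q₁ b) + Ts K F S₁ (q₁ (π b)))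
    ring
  have fadd₂ : ∀ a b, f₂ (a + b) = f₂ a + f₂ b := by
    intro a b
    show Ts K F S₂ (q₂ (a + b)) + Ts K F S₂ (q₂ (π (a + b))) = _
    rw [map_add, map_add, map_add, ts_add, ts_add]
    show _ = (Ts K F S₂ (q₂ a) + Ts K F S₂ (q₂ (π a))) + (Ts K F S₂ (q₂ b) + Ts K F S₂ (q₂ (π b)))
    ring
  have fsm₁ : ∀ (r : R) a, f₁ (r • a) = algebraMap K F (algebraMap R K r) * f₁ a := by
    intro r a
    show Ts K F S₁ (q₁ (r • a)) + Ts K F S₁ (q₁ (π (r • a))) = _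
    rw [hπ, hq₁, hq₁, ts_smul, ts_smul, ← mul_add]
  have fsm₂ : ∀ (r : R) a, f₂ (r • a) = algebraMap K F (algebraMap R K r) * f₂ a := by
    intro r a
    show Ts K F S₂ (q₂ (r • a)) + Ts K F S₂ (q₂ (π (r • a))) = _
    rw [hπ, hq₂, hq₂, ts_smul, ts_smul, ← mul_add]
  have ftr₁ : ∀ a b, f₁ (a * b) = f₁ (b * a) := by
    intro a b
    show Ts K F S₁ (q₁ (a * b)) + Ts K F S₁ (q₁ (π (a * b))) =
      Ts K F S₁ (q₁ (b * a)) + Ts K F S₁ (q₁ (π (b * a)))
    simp only [map_mul]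
    rw [ts_comm (q₁ a), ts_comm (q₁ (π a))]
  have ftr₂ : ∀ a b, f₂ (a * b) = f₂ (b * a) := by
    intro a b
    show Ts K F S₂ (q₂ (a * b)) + Ts K F S₂ (q₂ (π (a * b))) =
      Ts K F S₂ (q₂ (b * a)) + Ts K F S₂ (q₂ (π (b * a)))
    simp only [map_mul]
    rw [ts_comm (q₂ a), ts_comm (q₂ (π a))]
  have fπ₁ : ∀ a, f₁ (π a) = f₁ a := by
    intro a
    show Ts K F S₁ (q₁ (π a)) + Ts K F S₁ (q₁ (π (π a))) = _
    rw [hππ, add_comm]
  have fπ₂ : ∀ a, f₂ (π a) = f₂ a := by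
    intro a
    show Ts K F S₂ (q₂ (π a)) + Ts K F S₂ (q₂ (π (π a))) = _
    rw [hππ, add_comm]
  have fκ₁ : ∀ a, f₁ (κ a) = 2 * (c₁ * Ts K F Δ (i0 a)) := by
    intro a
    show Ts K F S₁ (q₁ (κ a)) + Ts K F S₁ (q₁ (π (κ a))) = _
    rw [hπκ, ← hκ₁, hc₁, two_mul]
  have fκ₂ : ∀ a, f₂ (κ a) = 2 * (c₂ * Ts K F Δ (i0 a)) := by
    intro a
    show Ts K F S₂ (q₂ (κ a)) + Ts K F S₂ (q₂ (π (κ a))) = _
    rw [hπκ, ← hκ₂, hc₂, two_mul]
  have hc1 : c₁ ≠ 0 := by
    intro hc0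
    obtain ⟨x, -, hx⟩ := nv (K := K) (F := F) q₁ hq₁ hsp₁ π hπ hππ h2 Set.univ
      (fun _ _ _ => trivial) (fun _ _ _ => trivial) ⟨1, trivial, by
        rw [map_one]
        exact one_ne_zero⟩
    apply hx
    exact htr (AddMonoidHom.mk' f₁ fadd₁) fsm₁ ftr₁ fπ₁ (fun a => by
      show f₁ (κ a) = 0
      rw [fκ₁, hc0, zero_mul, mul_zero]) x
  by_contra hcon
  obtain ⟨x, ⟨hx1, hx2⟩, hx⟩ := nv (K := K) (F := F) q₂ hq₂ hsp₂ π hπ hππ h2
    {x | q₁ x = 0 ∧ q₁ (π x) = 0}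
    (by
      rintro a x ⟨hx, hx'⟩
      exact ⟨by rw [map_mul, hx, mul_zero], by rw [map_mul, map_mul, hx', mul_zero]⟩)
    (by
      rintro a x ⟨hx, hx'⟩
      exact ⟨by rw [map_mul, hx, zero_mul], by rw [map_mul, map_mul, hx', zero_mul]⟩)
    ⟨a, ⟨h1, h1'⟩, hcon⟩
  have h0 := htr (AddMonoidHom.mk' (fun a => c₂ * f₁ a - c₁ * f₂ a) (by
      intro a b
      rw [fadd₁, fadd₂]
      ring)) (by
      intro r a
      show c₂ * f₁ (r • a) - c₁ * f₂ (r • a) = _ * (c₂ * f₁ a - c₁ * f₂ a)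
      rw [fsm₁, fsm₂]
      ring) (by
      intro a b
      show c₂ * f₁ (a * b) - c₁ * f₂ (a * b) = c₂ * f₁ (b * a) - c₁ * f₂ (b * a)
      rw [ftr₁, ftr₂]) (by
      intro a
      show c₂ * f₁ (π a) - c₁ * f₂ (π a) = c₂ * f₁ a - c₁ * f₂ a
      rw [fπ₁, fπ₂]) (by
      intro a
      show c₂ * f₁ (κ a) - c₁ * f₂ (κ a) = 0
      rw [fκ₁, fκ₂]
      ring) x
  have h3 : c₂ * f₁ x - c₁ * f₂ x = 0 := h0
  have h4 : f₁ x = 0 := by
    show Ts K F S₁ (q₁ x) + Ts K F S₁ (q₁ (π x)) = 0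
    rw [hx1, hx2, ts_zero, add_zero]
  rw [h4, mul_zero, zero_sub, neg_eq_zero] at h3
  exact hx ((mul_eq_zero.1 h3).resolve_left hc1)

end fin

section main

/-- The simple quotient of an irreducible representation. -/
theorem exists_simple {R : Type u} [CommRing R] [IsDomain R] {A : Type u} [Ring A] [Algebra R A]
    {ι' : Type*} [Fintype ι'] (wd : ι' → A) (hw : ∀ a, a ∈ Submodule.span R (Set.range wd))
    {F : Type u} [Field F] [IsAlgClosed F] [Algebra (FractionRing R) F] (φ : R →+* F)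
    (hφ : ∀ r, φ r = algebraMap (FractionRing R) F (algebraMap R (FractionRing R) r))
    {V : Type u} [AddCommGroup V] [Module F V] [FiniteDimensional F V]
    (ρ : A →+* Module.End F V) (hρ : Irr ρ) (hρφ : ∀ (r : R) a, ρ (r • a) = φ r • ρ a) :
    ∃ (S : Type u) (_ : Ring S) (_ : Algebra (FractionRing R) S) (_ : IsSimpleRing S)
      (_ : FiniteDimensional (FractionRing R) S) (q : A →+* S),
      (∀ (r : R) a, q (r • a) = algebraMap R (FractionRing R) r • q a) ∧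
      (∀ x, x ∈ Submodule.span (FractionRing R) (Set.range q)) ∧ ∀ a, q a = 0 ↔ ρ a = 0 := by
  classical
  let K := FractionRing R
  let _ : Module K V := Module.compHom V (algebraMap K F)
  have hst1 : IsScalarTower K F V := ⟨fun a b c => by
    rw [Algebra.smul_def, mul_smul]
    rfl⟩
  have hcV : ∀ (c : K) (x : Module.End F V), c • x = algebraMap K F c • x := fun c x => rfl
  let S := kspan K ρ
  let ρS : S →+* Module.End F V := S.val.toRingHom
  let T0 : A →+* S := kcor K ρ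
  have hT0 : ∀ (r : R) a, T0 (r • a) = algebraMap R K r • T0 a := by
    intro r a
    apply Subtype.ext
    show ρ (r • a) = algebraMap R K r • ρ a
    rw [hρφ, hcV, hφ]
  have hirr : Irr ρS := ⟨hρ.1, fun W hW => hρ.2 W fun a v hv => hW (T0 a) v hv⟩
  have hspan : (⊤ : Submodule K S) ≤ Submodule.span K (Set.range fun i => T0 (wd i)) := by
    intro x _
    refine (Submodule.span_le.2 ?_) (kcor_span (K := K) ρ x)
    rintro _ ⟨a, rfl⟩
    have h1 := hw a
    show T0 a ∈ Submodule.span K (Set.range fun i => T0 (wd i))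
    induction h1 using Submodule.span_induction with
    | mem a ha =>
      obtain ⟨i, rfl⟩ := ha
      exact Submodule.subset_span ⟨i, rfl⟩
    | zero => rw [map_zero]; exact Submodule.zero_mem _
    | add a b _ _ ha hb => rw [map_add]; exact Submodule.add_mem _ ha hb
    | smul c a _ ha => rw [hT0]; exact Submodule.smul_mem _ _ ha
  have hfin : FiniteDimensional K S := by
    refine ⟨(Submodule.fg_def.2 ⟨Set.range fun i => T0 (wd i), Set.finite_range _, ?_⟩)⟩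
    exact le_antisymm le_top hspan
  have hsimple : IsSimpleRing S := simple_of_irr K S ρS hirr Subtype.val_injective
  refine ⟨S, inferInstance, inferInstance, hsimple, hfin, T0, hT0, kcor_span (K := K) ρ, ?_⟩
  intro a
  constructor
  · intro h
    exact congrArg Subtype.val h
  · intro h
    exact Subtype.ext h

theorem uniq {R : Type u} [CommRing R] [IsDomain R] {A A₀ : Type u} [Ring A] [Algebra R A]
    [Ring A₀] [IsDomain A₀] [Algebra R A₀] {ι ι' : Type*} [Fintype ι] [Fintype ι']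
    (b : Basis ι R A₀) (κ : A₀ →+* A) (hκ : ∀ (r : R) a, κ (r • a) = r • κ a)
    (wd : ι' → A) (hw : ∀ a, a ∈ Submodule.span R (Set.range wd))
    (π : A →+* A) (hπ : ∀ (r : R) a, π (r • a) = r • π a) (hππ : ∀ a, π (π a) = a)
    (hπκ : ∀ a, π (κ a) = κ a)
    {F : Type u} [Field F] [Algebra (FractionRing R) F]
    [IsAlgClosure (FractionRing R) F] (h2 : (2 : F) ≠ 0) (φ : R →+* F)
    (hφ : ∀ r, φ r = algebraMap (FractionRing R) F (algebraMap R (FractionRing R) r))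
    (htr : ∀ f : A →+ F, (∀ (r : R) a, f (r • a) = φ r * f a) → (∀ a b, f (a * b) = f (b * a)) →
      (∀ a, f (π a) = f a) → (∀ a, f (κ a) = 0) → ∀ a, f a = 0)
    {V V' : Type u} [AddCommGroup V] [Module F V] [FiniteDimensional F V] [AddCommGroup V']
    [Module F V'] [FiniteDimensional F V'] (ρ : A →+* Module.End F V)
    (ρ' : A →+* Module.End F V') (hρ : Irr ρ) (hρ' : Irr ρ')
    (hρφ : ∀ (r : R) a, ρ (r • a) = φ r • ρ a) (hρφ' : ∀ (r : R) a, ρ' (r • a) = φ r • ρ' a)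
    (a : A) (h1 : ρ a = 0) (h1' : ρ (π a) = 0) : ρ' a = 0 := by
  classical
  have hac : IsAlgClosed F := IsAlgClosure.isAlgClosed (FractionRing R)
  have hnorm : Normal (FractionRing R) F := IsAlgClosure.normal (FractionRing R) F
  obtain ⟨S₁, _, _, _, _, q₁, hq₁, hsp₁, hk₁⟩ := exists_simple wd hw φ hφ ρ hρ hρφ
  obtain ⟨S₂, _, _, _, _, q₂, hq₂, hsp₂, hk₂⟩ := exists_simple wd hw φ hφ ρ' hρ' hρφ'
  obtain ⟨Δ, iD, aD, hDfin, hDrank, i0, hi0, hlift⟩ := exists_frac.{u, u} b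
  obtain ⟨κ1, hκ1⟩ := hlift S₁ (q₁.comp κ) (fun r a => by
    rw [RingHom.comp_apply, hκ, hq₁]
    rfl)
  obtain ⟨κ2, hκ2⟩ := hlift S₂ (q₂.comp κ) (fun r a => by
    rw [RingHom.comp_apply, hκ, hq₂]
    rfl)
  rw [← hk₂]
  refine uniq_core (K := FractionRing R) (F := F) q₁ hq₁ hsp₁ q₂ hq₂ hsp₂ κ i0 κ1 κ2 hκ1 hκ2 π hπ
    hππ hπκ h2 ?_ a ((hk₁ _).2 h1) ((hk₁ _).2 h1')
  intro f hf
  exact htr f (fun r a => by rw [hf, hφ])

end main

end Pool.Agent.Helper56.SKF
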