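import Mathlib
import Pool.Agent.Helper56.SKF.Uniq2
import Pool.Agent.Helper56.SKF.Defs2
import Pool.Agent.Helper84.SKF.Trace
import Pool.Agent.Helper70.SKF.Open
import Pool.Agent.Helper56.SKR.Spec
import Pool.Agent.Helper56.SKR.GenD

/-!
# The generic degrees
-/

namespace Pool.Agent.Helper56.SKF

open Module Pool.Agent.Helper56.SKW Pool.Agent.Helper56.SKW.PBW Pool.Agent.Helper56.SKU
  Pool.Agent.Helper56.SKR

universe u v w

section ext

variable {R X : Type*} [CommRing R] [Fintype X] {Pr : Pres R X} {S B : Type*} [CommRing S]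
  [Ring B] [Algebra S B]

/-- Semilinear homomorphisms are determined by the letters. -/
theorem hom_ext (φ : R →+* S) (T T' : EU Pr →+* B) (hT : ∀ (r : R) a, T (r • a) = φ r • T a)
    (hT' : ∀ (r : R) a, T' (r • a) = φ r • T' a) (h : ∀ x, T (gE Pr x) = T' (gE Pr x))
    (a : EU Pr) : T a = T' a := by
  have h1 := gE_span Pr a
  induction h1 using Submodule.span_induction with
  | mem a ha =>
    obtain ⟨l, rfl⟩ := ha
    rw [hom_pwf, hom_pwf]
    congr 1
    funext x
    exact h x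
  | zero => rw [map_zero, map_zero]
  | add a b _ _ ha hb => rw [map_add, map_add, ha, hb]
  | smul c a _ ha => rw [hT, hT', ha]

end ext

section reg

variable {k : Type u} [Field k] {m X : Type} [Fintype X] [LinearOrder X]
  {Pr : Pres (MvPolynomial m k) X} {hE : ∀ x y, IsUnit (Pr.E x y)} {hn : ∀ x, 2 ≤ Pr.n x}

theorem reg_inj (hfl : IsFlat hE hn) {F : Type u} [Field F] (φ : MvPolynomial m k →+* F)
    (hφ : Function.Injective φ) : Function.Injective (regRep hfl φ) := by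
  rw [injective_iff_map_eq_zero]
  intro a ha
  have h1 := regRep_zero hfl φ a ha
  have h2 : liftE hfl.rel a = 0 := by
    apply Matrix.map_injective hφ
    show (liftE hfl.rel a).map φ = (0 : Matrix (TI Pr) (TI Pr) (MvPolynomial m k)).map φ
    rw [h1]
    ext i j
    simp
  exact liftE_inj hfl (h2.trans (map_zero _).symm)

end reg

section gen

variable {k : Type u} {L₀ L₁ : Type*} [Field k] [AddCommGroup L₀] [Module k L₀] [AddCommGroup L₁]
  [Module k L₁] {m n : Type} [Fintype m] [Fintype n] [LinearOrder m] [DecidableEq n]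
  (g : LieSuper k L₀ L₁) (b₀ : Basis m k L₀) (b₁ : Basis n k L₁) (p : ℕ) (P : m → L₀)

omit [LinearOrder m] [DecidableEq n] in
theorem pi_smul (r : MvPolynomial m k) (a) : piE g b₀ b₁ p P (r • a) = r • piE g b₀ b₁ p P a :=
  liftE_smul _ r a

theorem kap_smul (r : MvPolynomial m k) (a) : kap g b₀ b₁ p P (r • a) = r • kap g b₀ b₁ p P a :=
  liftE_smul _ r a

omit [LinearOrder m] [DecidableEq n] in
theorem pi_sig : piE g b₀ b₁ p P (gE _ (Sum.inl ())) = -gE _ (Sum.inl ()) := liftE_gE _ _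

omit [LinearOrder m] [DecidableEq n] in
theorem pi_let (x : m ⊕ n) : piE g b₀ b₁ p P (gE _ (Sum.inr x)) = gE _ (Sum.inr x) :=
  liftE_gE _ _

theorem kap_let (x : m) : kap g b₀ b₁ p P (gE _ x) = gE _ (Sum.inr (Sum.inl x)) :=
  liftE_gE _ _

omit [LinearOrder m] [DecidableEq n] in
theorem pi_pi (a) : piE g b₀ b₁ p P (piE g b₀ b₁ p P a) = a := by
  refine hom_ext (RingHom.id _) ((piE g b₀ b₁ p P).comp (piE g b₀ b₁ p P)) (RingHom.id _)
    (fun r a => ?_) (fun r a => rfl) (fun x => ?_) a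
  · rw [RingHom.comp_apply, pi_smul, pi_smul]
    rfl
  · rcases x with ⟨⟩ | x
    · rw [RingHom.comp_apply, pi_sig, map_neg, pi_sig, neg_neg]
      rfl
    · rw [RingHom.comp_apply, pi_let, pi_let]
      rfl

theorem pi_kap (a) : piE g b₀ b₁ p P (kap g b₀ b₁ p P a) = kap g b₀ b₁ p P a := by
  refine hom_ext (RingHom.id _) ((piE g b₀ b₁ p P).comp (kap g b₀ b₁ p P)) (kap g b₀ b₁ p P)
    (fun r a => ?_) (fun r a => kap_smul g b₀ b₁ p P r a) (fun x => ?_) a
  · rw [RingHom.comp_apply, kap_smul, pi_smul]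
    rfl
  · rw [RingHom.comp_apply, kap_let, pi_let]

variable {g b₀ b₁ p P}

theorem pres_span {R X : Type*} [CommRing R] [Fintype X] [LinearOrder X] {Pr : Pres R X}
    (hE : ∀ x y, IsUnit (Pr.E x y)) (hn : ∀ x, 2 ≤ Pr.n x) (u : EU Pr) :
    u ∈ Submodule.span R (Set.range fun r : TI Pr => pwf (gE Pr) (bw Pr r)) := by
  refine (Submodule.span_le.2 ?_) (gE_span _ u)
  rintro _ ⟨l, rfl⟩
  exact (gE_rel _).span hE hn l

/-- The generic degree of the superalgebra. -/
theorem deg_super (h2 : (2 : k) ≠ 0) [hp : Fact p.Prime] [CharP k p]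
    (hP0 : ∀ i x, g.b00 (P i) x = ((g.b00 (b₀ i)) ^ p) x)
    (hP1 : ∀ i y, g.b01 (P i) y = ((g.b01 (b₀ i)) ^ p) y) :
    ∃ (d : ℕ) (f₀ : MvPolynomial m k), f₀ ≠ 0 ∧ ∀ (G V : Type u) [Field G] [IsAlgClosed G]
      [AddCommGroup V] [Module G V] [FiniteDimensional G V]
      (ρ : EU (PG g b₀ b₁ p P) →+* Module.End G V) (ψ : MvPolynomial m k →+* G), Irr ρ →
      (∀ (r : MvPolynomial m k) a, ρ (r • a) = ψ r • ρ a) →
      finrank G V ≤ d ∧ (ψ f₀ ≠ 0 → finrank G V = d) := by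
  classical
  let R := MvPolynomial m k
  let K := FractionRing R
  let F := AlgebraicClosure K
  let X := Unit ⊕ (m ⊕ n)
  let _ : LinearOrder X := LinearOrder.lift' (Fintype.equivFin X) (Fintype.equivFin X).injective
  let φ : R →+* F := (algebraMap K F).comp (algebraMap R K)
  have hφ : Function.Injective φ :=
    (algebraMap K F).injective.comp (IsFractionRing.injective R K)
  have hF2 : (2 : F) ≠ 0 := by
    intro h0
    apply h2
    have h1 : φ (MvPolynomial.C (2 : k)) = 0 := by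
      rw [map_ofNat, map_ofNat, h0]
    have h3 : (MvPolynomial.C (2 : k) : R) = 0 := hφ (by rw [h1, map_zero])
    rwa [MvPolynomial.C_eq_zero] at h3
  have hdom := even_domain (g := g) (b₀ := b₀) (P := P) h2 hP0
  have hind := even_indep (g := g) (b₀ := b₀) (P := P) h2 hP0
  let bs : Basis (TI (P0 g b₀ p P)) (MvPolynomial m k) (EU (P0 g b₀ p P)) :=
    Basis.mk hind (fun u _ => pres_span (P0_hE g b₀ p P) (P0_hn g b₀ p P hp.out.two_le) u)
  have hfl : IsFlat (PG_hE g b₀ b₁ p P) (PG_hn g b₀ b₁ p P hp.out.two_le) :=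
    full_flat h2 hP0 hP1
  have hw := pres_span (PG_hE g b₀ b₁ p P) (PG_hn g b₀ b₁ p P hp.out.two_le)
  have hnt : Nontrivial (TI (PG g b₀ b₁ p P) → F) := by
    have : Nonempty (TI (PG g b₀ b₁ p P)) := ⟨ti0 (PG_hn g b₀ b₁ p P hp.out.two_le)⟩
    infer_instance
  refine Pool.Agent.Helper70.SKF.opn (R := R) (A := EU (PG g b₀ b₁ p P)) _ hw
    (piE g b₀ b₁ p P) (pi_smul g b₀ b₁ p P) (pi_pi g b₀ b₁ p P) (F := F) φ hφ ?_
    (M := TI (PG g b₀ b₁ p P) → F) (regRep hfl φ) (regRep_smul hfl φ) ?_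
  · intro V V' _ _ _ _ _ _ ρ ρ' hρ hρ' hρφ hρφ' a ha ha'
    refine uniq (R := R) (F := F) bs (kap g b₀ b₁ p P) (kap_smul g b₀ b₁ p P) _ hw
      (piE g b₀ b₁ p P) (pi_smul g b₀ b₁ p P) (pi_pi g b₀ b₁ p P) (pi_kap g b₀ b₁ p P) hF2 φ
      (fun _ => rfl) ?_ ρ ρ' hρ hρ' hρφ hρφ' a ha ha'
    intro f hf htr hπ h0
    exact Pool.Agent.Helper84.SKF.trace_ext g b₀ b₁ p P hF2 φ f hf htr hπ h0
  · exact reg_inj hfl φ hφ

/-- The generic degree of the even part. -/
theorem deg_even (h2 : (2 : k) ≠ 0) [hp : Fact p.Prime] [CharP k p]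
    (hP0 : ∀ i x, g.b00 (P i) x = ((g.b00 (b₀ i)) ^ p) x) :
    ∃ (d : ℕ) (f₀ : MvPolynomial m k), f₀ ≠ 0 ∧ ∀ (G V : Type u) [Field G] [IsAlgClosed G]
      [AddCommGroup V] [Module G V] [FiniteDimensional G V]
      (ρ : EU (P0 g b₀ p P) →+* Module.End G V) (ψ : MvPolynomial m k →+* G), Irr ρ →
      (∀ (r : MvPolynomial m k) a, ρ (r • a) = ψ r • ρ a) →
      finrank G V ≤ d ∧ (ψ f₀ ≠ 0 → finrank G V = d) := by
  classical
  let R := MvPolynomial m k
  let K := FractionRing R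
  let F := AlgebraicClosure K
  let φ : R →+* F := (algebraMap K F).comp (algebraMap R K)
  have hφ : Function.Injective φ :=
    (algebraMap K F).injective.comp (IsFractionRing.injective R K)
  have hdom := even_domain (g := g) (b₀ := b₀) (P := P) h2 hP0
  have hind := even_indep (g := g) (b₀ := b₀) (P := P) h2 hP0
  let bs : Basis (TI (P0 g b₀ p P)) (MvPolynomial m k) (EU (P0 g b₀ p P)) :=
    Basis.mk hind (fun u _ => pres_span (P0_hE g b₀ p P) (P0_hn g b₀ p P hp.out.two_le) u)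
  have hfl : IsFlat (P0_hE g b₀ p P) (P0_hn g b₀ p P hp.out.two_le) := even_flat h2 hP0
  have hw := pres_span (P0_hE g b₀ p P) (P0_hn g b₀ p P hp.out.two_le)
  have hnt : Nontrivial (TI (P0 g b₀ p P) → F) := by
    have : Nonempty (TI (P0 g b₀ p P)) := ⟨ti0 (P0_hn g b₀ p P hp.out.two_le)⟩
    infer_instance
  have hinj : Function.Injective (regRep hfl φ) := reg_inj hfl φ hφ
  refine Pool.Agent.Helper70.SKF.opn (R := R) (A := EU (P0 g b₀ p P)) _ hw
    (RingHom.id _) (fun _ _ => rfl) (fun _ => rfl) (F := F) φ hφ ?_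
    (M := TI (P0 g b₀ p P) → F) (regRep hfl φ) (regRep_smul hfl φ) hinj
  intro V V' _ _ _ _ _ _ ρ ρ' hρ hρ' hρφ hρφ' a ha _
  -- `ρ` is injective
  have hntV := hρ.1
  obtain ⟨Δ, iD, aD, hDfin, hDrank, i0, hi0, hlift⟩ := exists_frac.{u, u, u} bs
  let _ : Module K V := Module.compHom V (algebraMap K F)
  have hst1 : IsScalarTower K F V := ⟨fun a b c => by
    rw [Algebra.smul_def, mul_smul]
    rfl⟩
  have hcV : ∀ (c : K) (x : Module.End F V), c • x = algebraMap K F c • x := fun c x => rfl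
  let M := TI (P0 g b₀ p P) → F
  have hcM : ∀ (c : K) (x : Module.End F M), c • x = algebraMap K F c • x := by
    intro c x
    rw [algebraMap_smul]
  obtain ⟨T', hT'⟩ := hlift (Module.End F M) (regRep hfl φ) (fun r a => by
    rw [regRep_smul, hcM]
    rfl)
  obtain ⟨ρ1, hρ1⟩ := hlift (Module.End F V) ρ (fun r a => by
    rw [hρφ, hcV]
    rfl)
  have ha0 : a = 0 := by
    by_contra hne
    have h3 : i0 a ≠ 0 := by
      intro h4
      apply hne
      apply hinj
      rw [← hT', h4, map_zero, map_zero]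
    have h5 : ρ1 (i0 a) * ρ1 (i0 a)⁻¹ = 1 := by
      rw [← map_mul, mul_inv_cancel₀ h3, map_one]
    rw [hρ1, ha, zero_mul] at h5
    exact zero_ne_one h5
  rw [ha0, map_zero]

end gen

end Pool.Agent.Helper56.SKF
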