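import Mathlib
import Pool.Agent.Helper56.SKF.Deg
import Pool.Agent.Helper56.SKR.MainA
import Pool.Agent.Helper56.SKR.Semi
import Pool.Agent.Helper81.SKF.Coind
import Pool.Agent.Helper45.SKF.Red
import Pool.Agent.Helper90.SKF.GenPt
import Pool.Agent.Helper61.SKF.Conv
import Pool.Agent.Helper59.SKF.Base
import Pool.Agent.Helper90.SKF.StepN

/-!
# The reduction theorem for all restricted Lie superalgebras
-/

namespace Pool.Agent.Helper56.SKF

open Module Pool.Agent.Helper56.SKW Pool.Agent.Helper56.SKW.PBW Pool.Agent.Helper56.SKU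
  Pool.Agent.Helper56.SKR Pool.Agent.Helper81.SKF Pool.Agent.Helper45.SKF
  Pool.Agent.Helper59.SKF Pool.Agent.Helper90.SKF

universe u v w

/-- Existence of a good irreducible representation near infinity. -/
theorem near_all {k : Type u} [Field k] [IsAlgClosed k] (p : ℕ) [hp : Fact p.Prime] [CharP k p]
    (hp2 : 2 < p) (h2 : (2 : k) ≠ 0) : ∀ (N : ℕ) (L₀ : Type v) (L₁ : Type w) [AddCommGroup L₀]
    [Module k L₀] [AddCommGroup L₁] [Module k L₁] [FiniteDimensional k L₀]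
    [FiniteDimensional k L₁] (g : LieSuper k L₀ L₁) (θ : L₀ →ₗ[k] k),
    (∀ x, ∃ x', g.b00 x' = (g.b00 x) ^ p ∧ g.b01 x' = (g.b01 x) ^ p) →
    (∀ θ', bOdd g θ' ≤ bOdd g θ) → finrank k L₁ ≤ N → HasNear p g θ := by
  have hinf : Infinite k := IsAlgClosed.instInfinite
  intro N
  induction N with
  | zero =>
    intro L₀ L₁ _ _ _ _ _ _ g θ hres hmax hN
    have h1 : Subsingleton L₁ := finrank_zero_iff.1 (Nat.le_zero.1 hN)
    refine base_near p hp2 g θ hres ?_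
    rw [Submodule.eq_bot_iff]
    intro y _
    exact Subsingleton.elim _ _
  | succ N ih =>
    intro L₀ L₁ _ _ _ _ _ _ g θ hres hmax hN
    by_cases hker : LinearMap.ker (form₁ g θ) = ⊥
    · exact base_near p hp2 g θ hres hker
    · obtain ⟨ν, hν, hν0⟩ := (Submodule.ne_bot_iff _).1 hker
      obtain ⟨θ', hθ', hmax', hb, hνν⟩ := gR_max h2 g θ hmax ν hν
      refine step_near p hp2 h2 g θ hres ν hν hνν θ' hθ' hb ?_
      refine ih _ _ (gR h2 g ν) θ' (gR_res h2 g ν p hp.out.pos hres) hmax' ?_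
      have h1 := Submodule.finrank_quotient_add_finrank (jO g ν)
      have h3 : finrank k (cO g ν) ≤ finrank k L₁ := Submodule.finrank_le _
      have h4 : 0 < finrank k (jO g ν) := by
        have h5 : jO g ν ≠ ⊥ := by
          rw [Submodule.ne_bot_iff]
          refine ⟨⟨ν, mem_cO.2 hνν⟩, ?_, fun h => hν0 (congrArg Subtype.val h)⟩
          show ν ∈ Submodule.span k {ν} ⊔ LinearMap.range (g.b01.flip ν)
          exact (le_sup_left : Submodule.span k {ν} ≤ _) (Submodule.mem_span_singleton_self ν)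
        have := Submodule.nontrivial_iff_ne_bot.2 h5
        exact finrank_pos
      omega

/-- All irreducible representations with a given character have the same dimension, so it
divides all dimensions. -/
theorem dvd_char {R A : Type*} [CommRing R] [Ring A] [Algebra R A] {F : Type*} [Field F]
    (φ : R →+* F) (d : ℕ)
    (hd : ∀ (V : Type w) [AddCommGroup V] [Module F V] [FiniteDimensional F V]
      (ρ : A →+* Module.End F V), Irr ρ → (∀ (r : R) a, ρ (r • a) = φ r • ρ a) →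
      d ∣ finrank F V) :
    ∀ (N : ℕ) (V : Type w) [AddCommGroup V] [Module F V] [FiniteDimensional F V]
      (ρ : A →+* Module.End F V), (∀ (r : R) a, ρ (r • a) = φ r • ρ a) → finrank F V ≤ N →
      d ∣ finrank F V := by
  intro N
  induction N with
  | zero =>
    intro V _ _ _ ρ _ hN
    rw [Nat.le_zero.1 hN]
    exact dvd_zero d
  | succ N ih =>
    intro V _ _ _ ρ hρφ hN
    rcases subsingleton_or_nontrivial V with hV | hV
    · rw [finrank_zero_of_subsingleton]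
      exact dvd_zero d
    · obtain ⟨W, hW, hW0, hirr⟩ := exists_irr_sub ρ
      have h1 := Submodule.finrank_quotient_add_finrank W
      have h2 : 0 < finrank F W := by
        have := Submodule.nontrivial_iff_ne_bot.2 hW0
        exact finrank_pos
      rw [← h1]
      refine dvd_add (ih _ (quotRep ρ W hW) (fun r a => ?_) (by omega))
        (hd _ _ hirr (fun r a => ?_))
      · apply LinearMap.ext
        intro v
        obtain ⟨v, rfl⟩ := W.mkQ_surjective v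
        rw [quotRep_mk, hρφ, LinearMap.smul_apply, LinearMap.smul_apply, map_smul, quotRep_mk]
      · apply LinearMap.ext
        intro v
        apply Subtype.ext
        rw [subRep_apply, hρφ]
        rfl

theorem pow_arith {c b l d : ℕ} (hl : 0 < l) (h1 : 2 ^ c * l ∣ d) (h2 : d ∣ 2 ^ b * l)
    (h3 : ¬ 2 ^ (c + 1) ∣ d) : d = 2 ^ c * l := by
  obtain ⟨m', hm'⟩ := h1
  have h4 : 2 ^ c * m' ∣ 2 ^ b := by
    have h5 : (2 ^ c * m') * l ∣ 2 ^ b * l := by
      have h6 : (2 ^ c * m') * l = d := by rw [hm']; ring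
      rw [h6]
      exact h2
    exact Nat.dvd_of_mul_dvd_mul_right hl h5
  have h5 : m' ∣ 2 ^ b := (Dvd.intro_left _ rfl).trans h4
  obtain ⟨j, -, hj⟩ := (Nat.dvd_prime_pow Nat.prime_two).1 h5
  rcases Nat.eq_zero_or_pos j with hj0 | hj0
  · rw [hm', hj, hj0, pow_zero, mul_one]
  · exfalso
    apply h3
    rw [hm', hj]
    obtain ⟨i, rfl⟩ : ∃ i, j = i + 1 := ⟨j - 1, by omega⟩
    exact ⟨l * 2 ^ i, by ring⟩

theorem top_ne {σ k : Type*} [Field k] {f : MvPolynomial σ k} (hf : f ≠ 0) :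
    MvPolynomial.homogeneousComponent f.totalDegree f ≠ 0 := by
  classical
  intro h0
  obtain ⟨ν, hν, hd⟩ := Finset.exists_mem_eq_sup f.support (MvPolynomial.support_nonempty.2 hf)
    (fun s : σ →₀ ℕ => s.sum fun _ e => e)
  have h1 := congrArg (MvPolynomial.coeff ν) h0
  rw [MvPolynomial.coeff_homogeneousComponent, if_pos, MvPolynomial.coeff_zero] at h1
  · exact MvPolynomial.mem_support_iff.1 hν h1
  · exact hd.symm

/-- The order of the letters. -/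
def keyG (a b : ℕ) : Unit ⊕ (Fin a ⊕ Fin b) → ℕ
  | Sum.inl _ => a
  | Sum.inr (Sum.inl i) => i
  | Sum.inr (Sum.inr j) => a + 1 + j

theorem keyG_inj (a b : ℕ) : Function.Injective (keyG a b) := by
  rintro (⟨⟩ | (i | i)) (⟨⟩ | (j | j)) h
  · rfl
  · have h' : a = (j : ℕ) := h
    have := j.2
    omega
  · have h' : a = a + 1 + (j : ℕ) := h
    omega
  · have h' : (i : ℕ) = a := h
    have := i.2
    omega
  · have h' : (i : ℕ) = j := h
    rw [Fin.ext h']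
  · have h' : (i : ℕ) = a + 1 + (j : ℕ) := h
    have := i.2
    omega
  · have h' : a + 1 + (i : ℕ) = a := h
    omega
  · have h' : a + 1 + (i : ℕ) = j := h
    have := j.2
    omega
  · have h' : a + 1 + (i : ℕ) = a + 1 + j := h
    have h3 : (i : ℕ) = j := by omega
    rw [Fin.ext h3]

/-- The coinduced representation of the even part. -/
theorem coind_even {k : Type u} {L₀ L₁ : Type*} [Field k] [AddCommGroup L₀] [Module k L₀]
    [AddCommGroup L₁] [Module k L₁] {a b : ℕ} {g : LieSuper k L₀ L₁} {b₀ : Basis (Fin a) k L₀}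
    {b₁ : Basis (Fin b) k L₁} {p : ℕ} {P : Fin a → L₀} (h2 : (2 : k) ≠ 0) [hp : Fact p.Prime]
    [CharP k p] (hP0 : ∀ i x, g.b00 (P i) x = ((g.b00 (b₀ i)) ^ p) x)
    (hP1 : ∀ i y, g.b01 (P i) y = ((g.b01 (b₀ i)) ^ p) y) {F : Type u} [Field F]
    (φ : MvPolynomial (Fin a) k →+* F) {L : Type u} [AddCommGroup L] [Module F L]
    [FiniteDimensional F L] (τ : EU (P0 g b₀ p P) →+* Module.End F L)
    (hτ : ∀ (r : MvPolynomial (Fin a) k) a, τ (r • a) = φ r • τ a) :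
    ∃ (W : Type u) (_ : AddCommGroup W) (_ : Module F W) (_ : FiniteDimensional F W)
      (ρ : EU (PG g b₀ b₁ p P) →+* Module.End F W),
      (∀ (r : MvPolynomial (Fin a) k) a, ρ (r • a) = φ r • ρ a) ∧
      finrank F W = 2 ^ (b + 1) * finrank F L := by
  let X := Unit ⊕ (Fin a ⊕ Fin b)
  let ord : LinearOrder X := LinearOrder.lift' (keyG a b) (keyG_inj a b)
  have hlt : ∀ x y : X, keyG a b x < keyG a b y → @LT.lt X ord.toPartialOrder.toPreorder.toLT x y :=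
    fun x y h => h
  obtain ⟨W, i1, i2, i3, ρ, hρ, hW⟩ := coind_pres (X := X) (X' := Fin a) (PG g b₀ b₁ p P)
    (P0 g b₀ p P) (PG_hE g b₀ b₁ p P) (PG_hn g b₀ b₁ p P hp.out.two_le) (full_flat h2 hP0 hP1)
    (P0_hE g b₀ p P) (fun i => Sum.inr (Sum.inl i)) (fun i j hij => hlt _ _ hij) (by
      intro i x hx
      apply hlt
      rcases x with ⟨⟩ | (x | x)
      · exact i.2
      · exact absurd ⟨x, rfl⟩ hx
      · show (i : ℕ) < a + 1 + x
        have := i.2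
        omega) (fun _ => rfl) (isRel_even (gE_rel _)) φ τ hτ
  refine ⟨W, i1, i2, i3, ρ, hρ, ?_⟩
  have h3 : 0 < p ^ a := pow_pos hp.out.pos _
  rw [P0_prod, PG_prod, Fintype.card_fin, Fintype.card_fin] at hW
  have h4 : p ^ a * finrank F W = p ^ a * (2 ^ (b + 1) * finrank F L) := by
    rw [mul_comm, hW]
    ring
  exact Nat.eq_of_mul_eq_mul_left h3 h4

section full

variable {k : Type u} [Field k] [IsAlgClosed k] {L₀ : Type v} {L₁ : Type w} [AddCommGroup L₀]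
  [Module k L₀] [AddCommGroup L₁] [Module k L₁] [FiniteDimensional k L₀] [FiniteDimensional k L₁]

/-- **The reduction theorem.** -/
theorem full (p : ℕ) [hp : Fact p.Prime] [CharP k p] (hp2 : 2 < p) (g : LieSuper k L₀ L₁)
    (hres : ∀ x, ∃ x', g.b00 x' = (g.b00 x) ^ p ∧ g.b01 x' = (g.b01 x) ^ p)
    (θ₁ : L₀ →ₗ[k] k) (hmax : ∀ θ, bOdd g θ ≤ bOdd g θ₁) :
    ∃ D₀ D : ℕ, MaxEven g D₀ ∧ MaxSuper g D ∧ D = 2 ^ ((bOdd g θ₁ + 1) / 2) * D₀ := by
  classical
  have h2 : (2 : k) ≠ 0 := by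
    intro h0
    have h1 : ((2 : ℕ) : k) = 0 := by exact_mod_cast h0
    rw [CharP.cast_eq_zero_iff k p] at h1
    have := Nat.le_of_dvd (by norm_num) h1
    omega
  have hinf : Infinite k := IsAlgClosed.instInfinite
  let b₀ : Basis (Fin (finrank k L₀)) k L₀ := finBasis k L₀
  let b₁ : Basis (Fin (finrank k L₁)) k L₁ := finBasis k L₁
  choose pm hpm0 hpm1 using hres
  let P : Fin (finrank k L₀) → L₀ := fun i => pm (b₀ i)
  have hP0 : ∀ i x, g.b00 (P i) x = ((g.b00 (b₀ i)) ^ p) x := fun i x => by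
    simp only [P, hpm0]
  have hP1 : ∀ i x, g.b01 (P i) x = ((g.b01 (b₀ i)) ^ p) x := fun i x => by
    simp only [P, hpm1]
  have hres' : ∀ x, ∃ x', g.b00 x' = (g.b00 x) ^ p ∧ g.b01 x' = (g.b01 x) ^ p :=
    fun x => ⟨pm x, hpm0 x, hpm1 x⟩
  obtain ⟨d, f₀, hf₀, hd⟩ := deg_super (b₀ := b₀) (b₁ := b₁) (P := P) h2 hP0 hP1
  obtain ⟨l, f₁, hf₁, hl⟩ := deg_even (b₀ := b₀) (P := P) h2 hP0
  -- a good point
  obtain ⟨c, hc⟩ : ∃ c : Fin (finrank k L₀) → k, MvPolynomial.eval c (f₀ * f₁) ≠ 0 := by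
    by_contra hcon
    push Not at hcon
    apply mul_ne_zero hf₀ hf₁
    apply MvPolynomial.funext
    intro x
    rw [hcon x, map_zero]
  rw [map_mul] at hc
  have hc0 := left_ne_zero_of_mul hc
  have hc1 := right_ne_zero_of_mul hc
  have hfl0 : IsFlat (P0_hE g b₀ p P) (P0_hn g b₀ p P hp.out.two_le) := even_flat h2 hP0
  obtain ⟨L, iL1, iL2, iL3, τ, hτ, hτφ⟩ := exists_gen hfl0 (MvPolynomial.eval c)
  have hLl : finrank k L = l := (hl k L τ (MvPolynomial.eval c) hτ hτφ).2 hc1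
  have hlpos : 0 < l := by
    have := hτ.1
    rw [← hLl]
    exact finrank_pos
  obtain ⟨V, iV1, iV2, iV3, ρ, hρ, hρφ⟩ : ∃ (V : Type u) (_ : AddCommGroup V) (_ : Module k V)
      (_ : FiniteDimensional k V) (ρ : EU (PG g b₀ b₁ p P) →+* Module.End k V), Irr ρ ∧
      ∀ (r : MvPolynomial (Fin (finrank k L₀)) k) a, ρ (r • a) = MvPolynomial.eval c r • ρ a := by
    let X := Unit ⊕ (Fin (finrank k L₀) ⊕ Fin (finrank k L₁))
    let _ : LinearOrder X := LinearOrder.lift' (Fintype.equivFin X) (Fintype.equivFin X).injective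
    have hfl1 : IsFlat (PG_hE g b₀ b₁ p P) (PG_hn g b₀ b₁ p P hp.out.two_le) :=
      full_flat h2 hP0 hP1
    exact exists_gen hfl1 (MvPolynomial.eval c)
  have hVd : finrank k V = d := (hd k V ρ (MvPolynomial.eval c) hρ hρφ).2 hc0
  -- the maxima
  have hE : MaxEven g l := by
    constructor
    · obtain ⟨M, hM⟩ := even_of_irr τ (fun c a => by rw [hτφ, MvPolynomial.eval_C]) hτ
      exact ⟨L, iL1, iL2, iL3, M, hM, hLl⟩
    · intro V' _ _ _ M hM
      obtain ⟨ζ', ρ', hρ', hρ'φ⟩ := irr_of_even (P := P) hP0 M hM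
      exact (hl k V' ρ' ((MvPolynomial.aeval ζ' : MvPolynomial _ k →ₐ[k] k) :
        MvPolynomial _ k →+* k) hρ' hρ'φ).1
  have hS : MaxSuper g d := by
    constructor
    · obtain ⟨W, M, hM, hW⟩ := super_of_irr h2 ρ (fun c a => by rw [hρφ, MvPolynomial.eval_C]) hρ
      exact ⟨W, inferInstance, inferInstance, inferInstance, M, hM, by rw [hW, hVd]⟩
    · intro V' _ _ _ M hM
      obtain ⟨ζ', ρ', hρ', hρ'φ⟩ := irr_of_super (b₀ := b₀) (b₁ := b₁) (P := P) h2 hP0 hP1 M hM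
      exact (hd k V' ρ' ((MvPolynomial.aeval ζ' : MvPolynomial _ k →ₐ[k] k) :
        MvPolynomial _ k →+* k) hρ' hρ'φ).1
  refine ⟨l, d, hE, hS, ?_⟩
  -- divisibility
  obtain ⟨D₀', D', hD₀', hD', hdvd, -⟩ := compare p hp2 g θ₁ hres'
  rw [maxEven_unique hD₀' hE, maxSuper_unique hD' hS] at hdvd
  obtain ⟨W, iW1, iW2, iW3, ρW, hρW, hWd⟩ := coind_even (b₁ := b₁) h2 hP0 hP1
    (MvPolynomial.eval c) τ hτφ
  have hdvd2 : d ∣ 2 ^ (finrank k L₁ + 1) * l := by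
    rw [← hLl, ← hWd]
    refine dvd_char (MvPolynomial.eval c) d ?_ _ W ρW hρW le_rfl
    intro V' _ _ _ ρ' hρ' hρ'φ
    rw [(hd k V' ρ' (MvPolynomial.eval c) hρ' hρ'φ).2 hc0]
  refine pow_arith hlpos hdvd hdvd2 ?_
  -- a small module
  obtain ⟨θ, hθ1, hθ2⟩ := exists_dir b₀ g θ₁ p hp.out.pos _ (top_ne hf₀)
  have hmaxθ : ∀ θ', bOdd g θ' ≤ bOdd g θ := fun θ' => (hmax θ').trans hθ1
  have hbθ : bOdd g θ = bOdd g θ₁ := le_antisymm (hmax θ) hθ1
  obtain ⟨F, iF, iAC, iA, O, η, V', j1, j2, j3, j4, j5, M, hη, hη0, hk, hM, hnear, hnd⟩ :=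
    near_all p hp2 h2 _ L₀ L₁ g θ hres' hmaxθ le_rfl
  choose ζ δ hδ hζ hζ' using fun i => hnear (b₀ i) (P i) (hP0 i) (hP1 i)
  obtain ⟨ρM, hρM, -, -, -, hirr⟩ := rep_of_grep (b₁ := b₁) h2 ζ M hζ
  have hfin := (hd F V' ρM ((MvPolynomial.aeval ζ : MvPolynomial _ k →ₐ[k] F) :
    MvPolynomial _ k →+* F) (hirr.1 hM) hρM).2
    (near_ne O η hη hη0 hk f₀ p hp.out.pos (fun i => θ (b₀ i)) hθ2 ζ
      (fun i => ⟨δ i, hδ i, hζ' i⟩))
  rw [hfin, hbθ] at hnd
  exact hnd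

theorem low_super (p : ℕ) [hp : Fact p.Prime] [CharP k p] (hp2 : 2 < p) (g : LieSuper k L₀ L₁)
    {D : ℕ} (hD : MaxSuper g D) (θ' : L₀ →ₗ[k] k) :
    p ^ (bEven g θ' / 2) * 2 ^ ((bOdd g θ' + 1) / 2) ≤ D := by
  obtain ⟨V, i1, i2, i3, M, hM, hd⟩ := main_general p (by omega) g θ'
  have := hM.1
  exact (Nat.le_of_dvd finrank_pos hd).trans (hD.2 V M hM)

theorem low_even (p : ℕ) [hp : Fact p.Prime] [CharP k p] (hp2 : 2 < p) (g : LieSuper k L₀ L₁)
    {D₀ D : ℕ} (hD : MaxSuper g D) (θ : L₀ →ₗ[k] k)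
    (hDE : D = 2 ^ ((bOdd g θ + 1) / 2) * D₀) (θ' : L₀ →ₗ[k] k) :
    p ^ (bEven g θ' / 2) ≤ D₀ := by
  have hinf : Infinite k := IsAlgClosed.instInfinite
  obtain ⟨θ'', h1, h2⟩ := exists_semi g θ' θ
  have h3 : p ^ (bEven g θ' / 2) * 2 ^ ((bOdd g θ + 1) / 2) ≤
      D₀ * 2 ^ ((bOdd g θ + 1) / 2) := by
    calc p ^ (bEven g θ' / 2) * 2 ^ ((bOdd g θ + 1) / 2) ≤
        p ^ (bEven g θ'' / 2) * 2 ^ ((bOdd g θ'' + 1) / 2) := by
          refine Nat.mul_le_mul (Nat.pow_le_pow_right hp.out.pos ?_)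
            (Nat.pow_le_pow_right (by norm_num) ?_)
          · omega
          · omega
      _ ≤ D := low_super p hp2 g hD θ''
      _ = _ := by rw [hDE, mul_comm]
  exact Nat.le_of_mul_le_mul_right h3 (by positivity)

/-- **Equivalence of the two conjectures.** -/
theorem full_iff (p : ℕ) [hp : Fact p.Prime] [CharP k p] (hp2 : 2 < p) (g : LieSuper k L₀ L₁)
    (hres : ∀ x, ∃ x', g.b00 x' = (g.b00 x) ^ p ∧ g.b01 x' = (g.b01 x) ^ p) :
    ∃ D₀ D c : ℕ, MaxEven g D₀ ∧ MaxSuper g D ∧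
      IsGreatest {e | ∃ θ : L₀ →ₗ[k] k, e = (bOdd g θ + 1) / 2} c ∧ D = 2 ^ c * D₀ ∧
      (IsGreatest {d | ∃ θ : L₀ →ₗ[k] k,
          d = p ^ (bEven g θ / 2) * 2 ^ ((bOdd g θ + 1) / 2)} D ↔
        IsGreatest {d | ∃ θ : L₀ →ₗ[k] k, d = p ^ (bEven g θ / 2)} D₀) := by
  have hinf : Infinite k := IsAlgClosed.instInfinite
  obtain ⟨e, ⟨θ, hθe⟩, hemax⟩ := exists_max (fun N => ∃ θ : L₀ →ₗ[k] k, bOdd g θ = N)
    ⟨_, 0, rfl⟩ (finrank k L₁) (by
      rintro N ⟨θ, rfl⟩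
      unfold bOdd
      omega)
  have hmax : ∀ θ', bOdd g θ' ≤ bOdd g θ := fun θ' => by
    rw [hθe]
    exact hemax _ ⟨θ', rfl⟩
  obtain ⟨D₀, D, hD₀, hD, hDE⟩ := full p hp2 g hres θ hmax
  have hD₀pos : 0 < D₀ := by
    obtain ⟨⟨V, i1, i2, i3, M, hM, hV⟩, -⟩ := hD₀
    have := hM.1
    rw [← hV]
    exact finrank_pos
  have hodd : ∀ θ' : L₀ →ₗ[k] k, (bOdd g θ' + 1) / 2 ≤ (bOdd g θ + 1) / 2 := by
    intro θ'
    have := hmax θ'
    omega
  refine ⟨D₀, D, (bOdd g θ + 1) / 2, hD₀, hD, ⟨⟨θ, rfl⟩, ?_⟩, hDE, ?_⟩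
  · rintro _ ⟨θ', rfl⟩
    exact hodd θ'
  have hlow := low_super p hp2 g hD
  have hlow0 := low_even p hp2 g hD θ hDE
  constructor
  · rintro ⟨⟨θ', hθ'⟩, -⟩
    have h1 : D₀ ≤ p ^ (bEven g θ' / 2) := by
      have h2 : 2 ^ ((bOdd g θ + 1) / 2) * D₀ ≤ 2 ^ ((bOdd g θ + 1) / 2) *
          p ^ (bEven g θ' / 2) := by
        rw [← hDE, hθ', mul_comm]
        exact Nat.mul_le_mul_right _ (Nat.pow_le_pow_right (by norm_num) (hodd θ'))
      exact Nat.le_of_mul_le_mul_left h2 (by positivity)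
    refine ⟨⟨θ', le_antisymm h1 (hlow0 θ')⟩, ?_⟩
    rintro _ ⟨θ'', rfl⟩
    exact hlow0 θ''
  · rintro ⟨⟨θ', hθ'⟩, -⟩
    obtain ⟨θ'', h1, h2⟩ := exists_semi g θ' θ
    refine ⟨⟨θ'', le_antisymm ?_ (hlow θ'')⟩, ?_⟩
    · rw [hDE, hθ', mul_comm]
      refine Nat.mul_le_mul (Nat.pow_le_pow_right hp.out.pos ?_)
        (Nat.pow_le_pow_right (by norm_num) ?_)
      · omega
      · omega
    · rintro _ ⟨θ₃, rfl⟩
      exact hlow θ₃

end full

end Pool.Agent.Helper56.SKF
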