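import Mathlib
import Pool.Agent.Helper56.SKR.Semi
import Pool.Agent.Helper56.SKU.Fin

/-!
# Toral stabilisers in the even part
-/

namespace Pool.Agent.Helper56.SKF

open Module Pool.Agent.Helper56.SKW Pool.Agent.Helper56.SKR

universe u v w

section toral

variable {k : Type u} [Field k] {L₀ L₁ : Type*} [AddCommGroup L₀] [Module k L₀] [AddCommGroup L₁]
  [Module k L₁]

/-- The even part as a Lie superalgebra. -/
def evL (g : LieSuper k L₀ L₁) : LieSuper k L₀ PUnit.{1} where
  b00 := g.b00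
  b01 := 0
  b11 := 0
  self00 := g.self00
  symm11 _ _ := rfl
  jac000 := g.jac000
  jac001 _ _ _ := Subsingleton.elim _ _
  jac011 _ _ _ := by simp
  jac111 _ := Subsingleton.elim _ _

/-- Modules over the even part as graded modules. -/
def evM {g : LieSuper k L₀ L₁} {V : Type*} [AddCommGroup V] [Module k V] (M : EvenModule g V) :
    SuperModule (evL g) V where
  V₀ := ⊤
  V₁ := ⊥
  compl := isCompl_top_bot
  ρ₀ := M.ρ
  ρ₁ := 0
  even_V₀ _ _ _ := trivial
  even_V₁ x v hv := by
    rw [Submodule.mem_bot] at hv ⊢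
    rw [hv, map_zero]
  odd_V₀ _ _ _ := Submodule.zero_mem _
  odd_V₁ _ _ _ := trivial
  map00 := M.map
  map01 _ _ := by simp
  map11 _ _ := by
    show M.ρ 0 = _
    simp

theorem evM_irr {g : LieSuper k L₀ L₁} {V : Type*} [AddCommGroup V] [Module k V]
    {M : EvenModule g V} (hM : M.IsIrreducible) : (evM M).IsIrreducible :=
  ⟨hM.1, fun W _ hW _ => hM.2 W hW⟩

/-- Irreducible modules over a Lie algebra with a toral stabiliser. -/
theorem even_bound [IsAlgClosed k] [FiniteDimensional k L₀] (p : ℕ) [hp : Fact p.Prime]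
    [CharP k p] (hp2 : 2 < p) (g : LieSuper k L₀ L₁) (θ : L₀ →ₗ[k] k)
    (hres : ∀ x, ∃ x', g.b00 x' = (g.b00 x) ^ p)
    (hab : ∀ h ∈ LinearMap.ker (form₀ g θ), ∀ h' ∈ LinearMap.ker (form₀ g θ), g.b00 h h' = 0)
    (htor : LinearMap.ker (form₀ g θ) ≤ Submodule.span k {h | h ∈ LinearMap.ker (form₀ g θ) ∧
      (g.b00 h) ^ p = g.b00 h})
    {V : Type*} [AddCommGroup V] [Module k V] [FiniteDimensional k V] (M : EvenModule g V)
    (hM : M.IsIrreducible) : finrank k V ≤ p ^ (bEven g θ / 2) := by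
  have hz : ∀ T : Module.End k PUnit.{1}, ∀ T' : Module.End k PUnit.{1}, T = T' := by
    intro T T'
    apply LinearMap.ext
    intro v
    exact Subsingleton.elim _ _
  have h1 := Pool.Agent.Helper56.SKU.upper_main p hp2 (evL g) θ (fun x => by
    obtain ⟨x', hx'⟩ := hres x
    exact ⟨x', hx', hz _ _⟩) hab (by
    refine htor.trans (Submodule.span_mono ?_)
    rintro h ⟨h1, h2⟩
    exact ⟨h1, h2, hz _ _⟩) (by
    rw [Submodule.eq_bot_iff]
    intro y _
    exact Subsingleton.elim _ _) (evM M) (evM_irr hM)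
  have h2 : bOdd (evL g) θ = 0 := by
    unfold bOdd
    rw [finrank_zero_of_subsingleton, Nat.zero_sub]
  have h3 : bEven (evL g) θ = bEven g θ := rfl
  rw [h2, h3] at h1
  simpa using h1

end toral

end Pool.Agent.Helper56.SKF
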