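import Mathlib
import Pool.Agent.Helper56.SKF.Main
import Pool.Agent.Helper56.SKF.Toral

/-!
# The first super Kac–Weisfeiler conjecture for toral stabilisers in the even part
-/

namespace Pool.Agent.Helper56.SKF

open Module Pool.Agent.Helper56.SKW Pool.Agent.Helper56.SKR

universe u v w

/-- The conjecture holds if some linear form on the even part has a toral stabiliser. -/
theorem toral {k : Type u} [Field k] [IsAlgClosed k] {L₀ : Type v} {L₁ : Type w}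
    [AddCommGroup L₀] [Module k L₀] [AddCommGroup L₁] [Module k L₁] [FiniteDimensional k L₀]
    [FiniteDimensional k L₁] (p : ℕ) [hp : Fact p.Prime] [CharP k p] (hp2 : 2 < p)
    (g : LieSuper k L₀ L₁)
    (hres : ∀ x, ∃ x', g.b00 x' = (g.b00 x) ^ p ∧ g.b01 x' = (g.b01 x) ^ p)
    (θ₀ : L₀ →ₗ[k] k)
    (hab : ∀ h ∈ LinearMap.ker (form₀ g θ₀), ∀ h' ∈ LinearMap.ker (form₀ g θ₀),
      g.b00 h h' = 0)
    (htor : LinearMap.ker (form₀ g θ₀) ≤ Submodule.span k {h | h ∈ LinearMap.ker (form₀ g θ₀) ∧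
      (g.b00 h) ^ p = g.b00 h}) :
    ∃ D c : ℕ, MaxSuper g D ∧ D = p ^ (bEven g θ₀ / 2) * 2 ^ c ∧
      IsGreatest {e | ∃ θ : L₀ →ₗ[k] k, e = (bOdd g θ + 1) / 2} c ∧
      IsGreatest {d | ∃ θ : L₀ →ₗ[k] k,
        d = p ^ (bEven g θ / 2) * 2 ^ ((bOdd g θ + 1) / 2)} D := by
  obtain ⟨D₀, D, c, hD₀, hD, hc, hDE, hiff⟩ := full_iff p hp2 g hres
  obtain ⟨⟨θ, hθ⟩, hc'⟩ := hc
  have hup : D₀ ≤ p ^ (bEven g θ₀ / 2) := by
    obtain ⟨⟨V, i1, i2, i3, M, hM, hV⟩, -⟩ := hD₀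
    rw [← hV]
    exact even_bound p hp2 g θ₀ (fun x => by
      obtain ⟨x', hx', -⟩ := hres x
      exact ⟨x', hx'⟩) hab htor M hM
  have hlow := low_even p hp2 g hD θ (by rw [hDE, hθ])
  have hE : D₀ = p ^ (bEven g θ₀ / 2) := le_antisymm hup (hlow θ₀)
  refine ⟨D, c, hD, by rw [hDE, hE, mul_comm], ⟨⟨θ, hθ⟩, hc'⟩, hiff.2 ⟨⟨θ₀, hE⟩, ?_⟩⟩
  rintro _ ⟨θ', rfl⟩
  exact hlow θ'

end Pool.Agent.Helper56.SKF
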